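import Mathlib

/-!
# MP_a50277_co (Wiseman-Wilson): interfaces between the parts
-/

set_option autoImplicit false

namespace WW

open Module

/-- CLAIM B (dual form).  `n i` are nonzero functionals on a finite dimensional real space `T` without common
zero.  (C): two relations with disjoint supports have spans which meet.  Then some `f ≠ 0` is killed by exactly
`finrank T - 1` of the functionals and is determined by them up to a scalar. -/
def ClaimB : Prop :=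
  ∀ (T : Type) [AddCommGroup T] [Module ℝ T] [FiniteDimensional ℝ T] (I : Type) [Fintype I]
    (n : I → Dual ℝ T), 2 ≤ finrank ℝ T → (∀ i, n i ≠ 0) → (∀ f : T, (∀ i, n i f = 0) → f = 0) →
    (∀ a b : I → ℝ, a ≠ 0 → b ≠ 0 → (∀ i, a i = 0 ∨ b i = 0) → ∑ i, a i • n i = 0 →
      ∑ i, b i • n i = 0 → ∃ a' b' : I → ℝ, (∀ i, a i = 0 → a' i = 0) ∧ (∀ i, b i = 0 → b' i = 0) ∧
        ∑ i, a' i • n i = ∑ i, b' i • n i ∧ ∑ i, a' i • n i ≠ 0) →
    ∃ f : T, f ≠ 0 ∧ Set.ncard {i | n i f = 0} = finrank ℝ T - 1 ∧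
      ∀ g : T, (∀ i, n i f = 0 → n i g = 0) → ∃ c : ℝ, g = c • f

/-- (C) for the points `(u i, v i)` of the plane and polynomials of degree at most `d` (monomial form). -/
def AffineC : Prop :=
  ∀ (I : Type) [Fintype I] (u v : I → ℝ), (∀ i j, u i = u j → v i = v j → i = j) → ∀ (d : ℕ)
    (a b : I → ℝ), a ≠ 0 → b ≠ 0 → (∀ i, a i = 0 ∨ b i = 0) →
    (∀ k l, k + l ≤ d → ∑ i, a i * (u i ^ k * v i ^ l) = 0) →
    (∀ k l, k + l ≤ d → ∑ i, b i * (u i ^ k * v i ^ l) = 0) →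
    ∃ a' b' : I → ℝ, (∀ i, a i = 0 → a' i = 0) ∧ (∀ i, b i = 0 → b' i = 0) ∧
      (∀ k l, k + l ≤ d → ∑ i, a' i * (u i ^ k * v i ^ l) = ∑ i, b' i * (u i ^ k * v i ^ l)) ∧
      ∃ k l, k + l ≤ d ∧ ∑ i, a' i * (u i ^ k * v i ^ l) ≠ 0

end WW
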