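import Mathlib
import Pool.Agent.Lib_MP_a50277.Iface

/-!
MP_a50277_co (Wiseman and Wilson), Part C: two disjointly supported nonzero relations of degree `d`
between points of the plane are never skew (helper68, board note 190).

`Rel X Y t c` : the weights `c` on the points `(X i, Y i)` kill all polynomials of degree at most `t`.
-/

set_option autoImplicit false

namespace Pool.Agent.A50277

open Finset

variable {I : Type} [Fintype I]

/-- The weights `c` kill all monomials of degree at most `t` at the points `(X i, Y i)`. -/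
def Rel (X Y : I → ℝ) (t : ℕ) (c : I → ℝ) : Prop :=
  ∀ a b : ℕ, a + b ≤ t → ∑ i, c i * (X i ^ a * Y i ^ b) = 0

/-- Polynomial functions of two real variables of degree at most `t`. -/
def PF (t : ℕ) : Submodule ℝ (ℝ → ℝ → ℝ) :=
  Submodule.span ℝ {g | ∃ a b : ℕ, a + b ≤ t ∧ g = fun u v => u ^ a * v ^ b}

theorem PF_mono {s t : ℕ} (h : s ≤ t) : PF s ≤ PF t := by
  apply Submodule.span_mono
  rintro g ⟨a, b, hab, rfl⟩
  exact ⟨a, b, hab.trans h, rfl⟩

theorem Rel.pf {X Y : I → ℝ} {t : ℕ} {c : I → ℝ} (h : Rel X Y t c) {g : ℝ → ℝ → ℝ}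
    (hg : g ∈ PF t) : ∑ i, c i * g (X i) (Y i) = 0 := by
  induction hg using Submodule.span_induction with
  | mem x hx =>
    obtain ⟨a, b, hab, rfl⟩ := hx
    exact h a b hab
  | zero => simp
  | add x y _ _ hx hy =>
    simp only [Pi.add_apply, mul_add, Finset.sum_add_distrib, hx, hy, add_zero]
  | smul r x _ hx =>
    simp only [Pi.smul_apply, smul_eq_mul]
    have : ∀ i, c i * (r * x (X i) (Y i)) = r * (c i * x (X i) (Y i)) := fun i => by ring
    simp only [this, ← Finset.mul_sum, hx, mul_zero]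

/-- The product kills mixed monomials of total degree at most `2 d + 1`. -/
theorem killMixed {X Y : I → ℝ} {d : ℕ} {α β : I → ℝ} (hα : Rel X Y d α) (hβ : Rel X Y d β)
    {p q r s : ℕ} (h : (p + q) + (r + s) ≤ 2 * d + 1) :
    ∑ i, ∑ j, α i * β j * ((X i ^ p * Y i ^ q) * (X j ^ r * Y j ^ s)) = 0 := by
  have e : ∑ i, ∑ j, α i * β j * ((X i ^ p * Y i ^ q) * (X j ^ r * Y j ^ s))
      = (∑ i, α i * (X i ^ p * Y i ^ q)) * (∑ j, β j * (X j ^ r * Y j ^ s)) := by
    rw [Finset.sum_mul_sum]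
    refine Finset.sum_congr rfl fun i _ => Finset.sum_congr rfl fun j _ => by ring
  rw [e]
  rcases le_or_gt (p + q) d with h1 | h1
  · rw [hα p q h1, zero_mul]
  · rw [hβ r s (by omega), mul_zero]

/-- Divided difference of `x ^ c y ^ a - x ^ a y ^ c`. -/
theorem dd_sum (x y : ℝ) (a k : ℕ) :
    (x ^ (a + k) * y ^ a - x ^ a * y ^ (a + k))
      = (∑ l ∈ range k, x ^ (a + l) * y ^ (a + (k - 1 - l))) * (x - y) := by
  have h := (Commute.all x y).geom_sum₂_mul k
  have : (∑ l ∈ range k, x ^ (a + l) * y ^ (a + (k - 1 - l)))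
      = x ^ a * y ^ a * ∑ l ∈ range k, x ^ l * y ^ (k - 1 - l) := by
    rw [Finset.mul_sum]
    refine Finset.sum_congr rfl fun l _ => ?_
    rw [pow_add, pow_add]
    ring
  rw [this, mul_assoc, h, pow_add, pow_add]
  ring

theorem pow_sub_sum (x y : ℝ) (m : ℕ) :
    x ^ m - y ^ m = (∑ l ∈ range m, x ^ l * y ^ (m - 1 - l)) * (x - y) :=
  ((Commute.all x y).geom_sum₂_mul m).symm

/-- The numerator of the bilinear identity. -/
def numer (F Q : ℝ → ℝ → ℝ) (x₁ x₂ y₁ y₂ : ℝ) : ℝ :=
  F y₁ x₂ * Q x₁ x₂ + F x₁ y₂ * Q y₁ y₂ - F x₁ x₂ * Q y₁ x₂ - F y₁ y₂ * Q x₁ y₂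

/-- The basic sum, both factors being monomials; first case. -/
theorem ident_aux {X Y : I → ℝ} {d : ℕ} {α β : I → ℝ} (hα : Rel X Y d α) (hβ : Rel X Y d β)
    (a k m : ℕ) (h : a + (a + k) + m ≤ 2 * d + 3) :
    ∑ i, ∑ j, α i * β j * ((∑ l ∈ range k, X i ^ (a + l) * X j ^ (a + (k - 1 - l)))
      * (∑ l ∈ range m, Y i ^ l * Y j ^ (m - 1 - l))) = 0 := by
  have e : ∀ i j, α i * β j * ((∑ l ∈ range k, X i ^ (a + l) * X j ^ (a + (k - 1 - l)))
      * (∑ l ∈ range m, Y i ^ l * Y j ^ (m - 1 - l)))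
      = ∑ l ∈ range k, ∑ l' ∈ range m, α i * β j *
        ((X i ^ (a + l) * Y i ^ l') * (X j ^ (a + (k - 1 - l)) * Y j ^ (m - 1 - l'))) := by
    intro i j
    rw [Finset.sum_mul_sum, Finset.mul_sum]
    refine Finset.sum_congr rfl fun l _ => ?_
    rw [Finset.mul_sum]
    refine Finset.sum_congr rfl fun l' _ => ?_
    ring
  simp only [e]
  have e2 : ∀ i, ∑ j, ∑ l ∈ range k, ∑ l' ∈ range m, α i * β j *
        ((X i ^ (a + l) * Y i ^ l') * (X j ^ (a + (k - 1 - l)) * Y j ^ (m - 1 - l')))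
      = ∑ l ∈ range k, ∑ l' ∈ range m, ∑ j, α i * β j *
        ((X i ^ (a + l) * Y i ^ l') * (X j ^ (a + (k - 1 - l)) * Y j ^ (m - 1 - l'))) := by
    intro i
    rw [Finset.sum_comm]
    refine Finset.sum_congr rfl fun l _ => ?_
    rw [Finset.sum_comm]
  simp only [e2]
  rw [Finset.sum_comm]
  refine Finset.sum_eq_zero fun l hl => ?_
  rw [Finset.sum_comm]
  refine Finset.sum_eq_zero fun l' hl' => ?_
  apply killMixed hα hβ
  rw [mem_range] at hl hl'
  omega

/-- Bilinear identity for monomials. -/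
theorem ident_mono {X Y : I → ℝ} {d : ℕ} {α β : I → ℝ} (hα : Rel X Y d α) (hβ : Rel X Y d β)
    (hX : ∀ i j, α i ≠ 0 → β j ≠ 0 → X i ≠ X j) (hY : ∀ i j, α i ≠ 0 → β j ≠ 0 → Y i ≠ Y j)
    (a b c e : ℕ) (h1 : a + b ≤ d + 2) (h2 : c + e ≤ d + 1) :
    ∑ i, ∑ j, α i * β j * (numer (fun u v => u ^ a * v ^ b) (fun u v => u ^ c * v ^ e)
      (X i) (Y i) (X j) (Y j) / ((X i - X j) * (Y i - Y j))) = 0 := by
  have fac : ∀ x₁ x₂ y₁ y₂ : ℝ, numer (fun u v => u ^ a * v ^ b) (fun u v => u ^ c * v ^ e)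
      x₁ x₂ y₁ y₂ = (x₁ ^ c * y₁ ^ a - x₁ ^ a * y₁ ^ c) * (x₂ ^ (b + e) - y₂ ^ (b + e)) := by
    intro x₁ x₂ y₁ y₂
    unfold numer
    ring
  rcases le_total a c with hac | hac
  · obtain ⟨k, rfl⟩ := Nat.exists_eq_add_of_le hac
    rw [← ident_aux hα hβ a k (b + e) (by omega)]
    refine Finset.sum_congr rfl fun i _ => Finset.sum_congr rfl fun j _ => ?_
    by_cases hi : α i = 0
    · rw [hi]; ring
    by_cases hj : β j = 0
    · rw [hj]; ring
    have hx := sub_ne_zero.mpr (hX i j hi hj)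
    have hy := sub_ne_zero.mpr (hY i j hi hj)
    rw [fac, dd_sum, pow_sub_sum]
    congr 1
    field_simp
  · obtain ⟨k, rfl⟩ := Nat.exists_eq_add_of_le hac
    have key := ident_aux hα hβ c k (b + e) (by omega)
    rw [← neg_eq_zero, ← key, ← Finset.sum_neg_distrib]
    refine Finset.sum_congr rfl fun i _ => ?_
    rw [← Finset.sum_neg_distrib]
    refine Finset.sum_congr rfl fun j _ => ?_
    by_cases hi : α i = 0
    · rw [hi]; ring
    by_cases hj : β j = 0
    · rw [hj]; ring
    have hx := sub_ne_zero.mpr (hX i j hi hj)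
    have hy := sub_ne_zero.mpr (hY i j hi hj)
    rw [fac, ← neg_sub (X i ^ (c + k) * X j ^ c) (X i ^ c * X j ^ (c + k)), dd_sum, pow_sub_sum,
      ← mul_neg]
    congr 1
    field_simp

/-- Bilinear identity for all polynomials. -/
theorem ident {X Y : I → ℝ} {d : ℕ} {α β : I → ℝ} (hα : Rel X Y d α) (hβ : Rel X Y d β)
    (hX : ∀ i j, α i ≠ 0 → β j ≠ 0 → X i ≠ X j) (hY : ∀ i j, α i ≠ 0 → β j ≠ 0 → Y i ≠ Y j)
    {F Q : ℝ → ℝ → ℝ} (hF : F ∈ PF (d + 2)) (hQ : Q ∈ PF (d + 1)) :
    ∑ i, ∑ j, α i * β j * (numer F Q (X i) (Y i) (X j) (Y j) / ((X i - X j) * (Y i - Y j))) = 0 := by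
  induction hF using Submodule.span_induction with
  | mem F hF =>
    obtain ⟨a, b, hab, rfl⟩ := hF
    induction hQ using Submodule.span_induction with
    | mem Q hQ =>
      obtain ⟨c, e, hce, rfl⟩ := hQ
      exact ident_mono hα hβ hX hY a b c e hab hce
    | zero => simp [numer]
    | add x y _ _ hx hy =>
      have : ∀ i j, α i * β j * (numer (fun u v => u ^ a * v ^ b) (x + y)
          (X i) (Y i) (X j) (Y j) / ((X i - X j) * (Y i - Y j)))
          = α i * β j * (numer (fun u v => u ^ a * v ^ b) x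
          (X i) (Y i) (X j) (Y j) / ((X i - X j) * (Y i - Y j)))
          + α i * β j * (numer (fun u v => u ^ a * v ^ b) y
          (X i) (Y i) (X j) (Y j) / ((X i - X j) * (Y i - Y j))) := by
        intro i j
        simp only [numer, Pi.add_apply]
        ring
      simp only [this, Finset.sum_add_distrib, hx, hy, add_zero]
    | smul r x _ hx =>
      have : ∀ i j, α i * β j * (numer (fun u v => u ^ a * v ^ b) (r • x)
          (X i) (Y i) (X j) (Y j) / ((X i - X j) * (Y i - Y j)))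
          = r * (α i * β j * (numer (fun u v => u ^ a * v ^ b) x
          (X i) (Y i) (X j) (Y j) / ((X i - X j) * (Y i - Y j)))) := by
        intro i j
        simp only [numer, Pi.smul_apply, smul_eq_mul]
        ring
      simp only [this, ← Finset.mul_sum, hx, mul_zero]
  | zero => simp [numer]
  | add x y _ _ hx hy =>
    have : ∀ i j, α i * β j * (numer (x + y) Q
        (X i) (Y i) (X j) (Y j) / ((X i - X j) * (Y i - Y j)))
        = α i * β j * (numer x Q (X i) (Y i) (X j) (Y j) / ((X i - X j) * (Y i - Y j)))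
        + α i * β j * (numer y Q (X i) (Y i) (X j) (Y j) / ((X i - X j) * (Y i - Y j))) := by
      intro i j
      simp only [numer, Pi.add_apply]
      ring
    simp only [this, Finset.sum_add_distrib, hx, hy, add_zero]
  | smul r x _ hx =>
    have : ∀ i j, α i * β j * (numer (r • x) Q
        (X i) (Y i) (X j) (Y j) / ((X i - X j) * (Y i - Y j)))
        = r * (α i * β j * (numer x Q (X i) (Y i) (X j) (Y j) / ((X i - X j) * (Y i - Y j)))) := by
      intro i j
      simp only [numer, Pi.smul_apply, smul_eq_mul]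
      ring
    simp only [this, ← Finset.mul_sum, hx, mul_zero]

theorem PF_sub_mul_left {t : ℕ} {G : ℝ → ℝ → ℝ} (hG : G ∈ PF t) (c : ℝ) :
    (fun u v => (u - c) * G u v) ∈ PF (t + 1) := by
  induction hG using Submodule.span_induction with
  | mem G hG =>
    obtain ⟨a, b, hab, rfl⟩ := hG
    have e : (fun u v : ℝ => (u - c) * (u ^ a * v ^ b))
        = (fun u v : ℝ => u ^ (a + 1) * v ^ b) + (-c) • (fun u v : ℝ => u ^ a * v ^ b) := by
      funext u v
      simp only [Pi.add_apply, Pi.smul_apply, smul_eq_mul]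
      ring
    rw [e]
    exact Submodule.add_mem _ (Submodule.subset_span ⟨a + 1, b, by omega, rfl⟩)
      (Submodule.smul_mem _ _ (Submodule.subset_span ⟨a, b, by omega, rfl⟩))
  | zero =>
    have e : (fun u v : ℝ => (u - c) * (0 : ℝ → ℝ → ℝ) u v) = 0 := by
      funext u v
      simp
    rw [e]
    exact Submodule.zero_mem _
  | add x y _ _ hx hy =>
    have e : (fun u v : ℝ => (u - c) * (x + y) u v)
        = (fun u v : ℝ => (u - c) * x u v) + (fun u v : ℝ => (u - c) * y u v) := by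
      funext u v
      simp only [Pi.add_apply]
      ring
    rw [e]
    exact Submodule.add_mem _ hx hy
  | smul r x _ hx =>
    have e : (fun u v : ℝ => (u - c) * (r • x) u v)
        = r • (fun u v : ℝ => (u - c) * x u v) := by
      funext u v
      simp only [Pi.smul_apply, smul_eq_mul]
      ring
    rw [e]
    exact Submodule.smul_mem _ _ hx

theorem PF_sub_mul_right {t : ℕ} {G : ℝ → ℝ → ℝ} (hG : G ∈ PF t) (c : ℝ) :
    (fun u v => (v - c) * G u v) ∈ PF (t + 1) := by
  induction hG using Submodule.span_induction with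
  | mem G hG =>
    obtain ⟨a, b, hab, rfl⟩ := hG
    have e : (fun u v : ℝ => (v - c) * (u ^ a * v ^ b))
        = (fun u v : ℝ => u ^ a * v ^ (b + 1)) + (-c) • (fun u v : ℝ => u ^ a * v ^ b) := by
      funext u v
      simp only [Pi.add_apply, Pi.smul_apply, smul_eq_mul]
      ring
    rw [e]
    exact Submodule.add_mem _ (Submodule.subset_span ⟨a, b + 1, by omega, rfl⟩)
      (Submodule.smul_mem _ _ (Submodule.subset_span ⟨a, b, by omega, rfl⟩))
  | zero =>
    have e : (fun u v : ℝ => (v - c) * (0 : ℝ → ℝ → ℝ) u v) = 0 := by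
      funext u v
      simp
    rw [e]
    exact Submodule.zero_mem _
  | add x y _ _ hx hy =>
    have e : (fun u v : ℝ => (v - c) * (x + y) u v)
        = (fun u v : ℝ => (v - c) * x u v) + (fun u v : ℝ => (v - c) * y u v) := by
      funext u v
      simp only [Pi.add_apply]
      ring
    rw [e]
    exact Submodule.add_mem _ hx hy
  | smul r x _ hx =>
    have e : (fun u v : ℝ => (v - c) * (r • x) u v)
        = r • (fun u v : ℝ => (v - c) * x u v) := by
      funext u v
      simp only [Pi.smul_apply, smul_eq_mul]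
      ring
    rw [e]
    exact Submodule.smul_mem _ _ hx

/-- Divided difference in the second variable is killed by a relation. -/
theorem dd_kill {X Y : I → ℝ} {d : ℕ} {β : I → ℝ} (hβ : Rel X Y d β) (y₀ : ℝ)
    (hy : ∀ j, β j ≠ 0 → y₀ ≠ Y j) {G : ℝ → ℝ → ℝ} (hG : G ∈ PF (d + 1)) :
    ∑ j, β j * ((G (X j) y₀ - G (X j) (Y j)) / (y₀ - Y j)) = 0 := by
  induction hG using Submodule.span_induction with
  | mem G hG =>
    obtain ⟨a, b, hab, rfl⟩ := hG
    have e : ∀ j, β j * ((X j ^ a * y₀ ^ b - X j ^ a * Y j ^ b) / (y₀ - Y j))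
        = ∑ l ∈ range b, y₀ ^ l * (β j * (X j ^ a * Y j ^ (b - 1 - l))) := by
      intro j
      by_cases hj : β j = 0
      · simp [hj]
      have h0 := sub_ne_zero.mpr (hy j hj)
      rw [← mul_sub, pow_sub_sum, mul_div_assoc, mul_div_assoc, div_self h0, mul_one,
        Finset.mul_sum, Finset.mul_sum]
      refine Finset.sum_congr rfl fun l _ => by ring
    simp only [e]
    rw [Finset.sum_comm]
    refine Finset.sum_eq_zero fun l hl => ?_
    rw [← Finset.mul_sum, hβ a (b - 1 - l) (by rw [mem_range] at hl; omega), mul_zero]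
  | zero => simp
  | add x y _ _ hx hy =>
    have e : ∀ j, β j * (((x + y) (X j) y₀ - (x + y) (X j) (Y j)) / (y₀ - Y j))
        = β j * ((x (X j) y₀ - x (X j) (Y j)) / (y₀ - Y j))
          + β j * ((y (X j) y₀ - y (X j) (Y j)) / (y₀ - Y j)) := by
      intro j
      simp only [Pi.add_apply]
      ring
    simp only [e, Finset.sum_add_distrib, hx, hy, add_zero]
  | smul r x _ hx =>
    have e : ∀ j, β j * (((r • x) (X j) y₀ - (r • x) (X j) (Y j)) / (y₀ - Y j))
        = r * (β j * ((x (X j) y₀ - x (X j) (Y j)) / (y₀ - Y j))) := by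
      intro j
      simp only [Pi.smul_apply, smul_eq_mul]
      ring
    simp only [e, ← Finset.mul_sum, hx, mul_zero]

/-- If no nonzero relation of degree `t` is supported in `J`, polynomials of degree at most `t`
take arbitrary values on `J`. -/
theorem fill {X Y : I → ℝ} {t : ℕ} (J : I → Prop)
    (hno : ∀ μ : I → ℝ, Rel X Y t μ → (∀ i, ¬ J i → μ i = 0) → μ = 0) (τ : I → ℝ) :
    ∃ G ∈ PF t, ∀ i, J i → G (X i) (Y i) = τ i := by
  classical
  let ev : (ℝ → ℝ → ℝ) →ₗ[ℝ] (I → ℝ) :=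
    { toFun := fun g i => g (X i) (Y i)
      map_add' := fun _ _ => rfl
      map_smul' := fun _ _ => rfl }
  let K : Submodule ℝ (I → ℝ) :=
    { carrier := {f | ∀ i, J i → f i = 0}
      add_mem' := fun {a b} ha hb i hi => by
        rw [Pi.add_apply, ha i hi, hb i hi, add_zero]
      zero_mem' := fun _ _ => rfl
      smul_mem' := fun c f hf i hi => by
        rw [Pi.smul_apply, hf i hi, smul_zero] }
  by_cases hτ : τ ∈ (PF t).map ev ⊔ K
  · obtain ⟨y, hy, z, hz, hyz⟩ := Submodule.mem_sup.mp hτ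
    obtain ⟨G, hG, rfl⟩ := hy
    refine ⟨G, hG, fun i hi => ?_⟩
    have h1 := congrFun hyz i
    rw [Pi.add_apply, hz i hi, add_zero] at h1
    exact h1
  · exfalso
    obtain ⟨φ, hφ, hφ0⟩ := Submodule.exists_dual_map_eq_bot_of_notMem hτ inferInstance
    have hk : ∀ w ∈ (PF t).map ev ⊔ K, φ w = 0 := by
      intro w hw
      have : φ w ∈ ((PF t).map ev ⊔ K).map φ := Submodule.mem_map_of_mem hw
      rw [hφ0] at this
      simpa using this
    have hsum : ∀ w : I → ℝ, φ w = ∑ i, φ (fun j => if i = j then 1 else 0) * w i := by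
      intro w
      rw [LinearMap.pi_apply_eq_sum_univ φ w]
      refine Finset.sum_congr rfl fun i _ => ?_
      rw [smul_eq_mul, mul_comm]
    have h0 := hno (fun i => φ (fun j => if i = j then 1 else 0)) ?_ ?_
    · apply hφ
      rw [hsum τ]
      refine Finset.sum_eq_zero fun i _ => ?_
      have := congrFun h0 i
      simp only [Pi.zero_apply] at this
      rw [this, zero_mul]
    · intro a b hab
      have h1 := hk (ev (fun u v => u ^ a * v ^ b))
        (Submodule.mem_sup_left (Submodule.mem_map_of_mem (Submodule.subset_span ⟨a, b, hab, rfl⟩)))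
      rw [hsum] at h1
      exact h1
    · intro i hi
      apply hk
      apply Submodule.mem_sup_right
      intro j hj
      refine if_neg ?_
      rintro rfl
      exact hi hj

/-- Lemma 1: two disjointly supported nonzero relations of degree `d` force a nonzero relation of
degree `d + 1` on the union of the supports. -/
theorem exists_rel_succ {X Y : I → ℝ} {d : ℕ} {α β : I → ℝ} (hα : Rel X Y d α)
    (hβ : Rel X Y d β) (hdisj : ∀ i, α i = 0 ∨ β i = 0) (hα0 : α ≠ 0) (hβ0 : β ≠ 0)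
    (hX : ∀ i j, α i ≠ 0 → β j ≠ 0 → X i ≠ X j) (hY : ∀ i j, α i ≠ 0 → β j ≠ 0 → Y i ≠ Y j) :
    ∃ μ : I → ℝ, μ ≠ 0 ∧ Rel X Y (d + 1) μ ∧ ∀ i, α i = 0 → β i = 0 → μ i = 0 := by
  classical
  by_contra hcon
  push Not at hcon
  have hno : ∀ μ : I → ℝ, Rel X Y (d + 1) μ → (∀ i, ¬ (α i ≠ 0 ∨ β i ≠ 0) → μ i = 0) → μ = 0 := by
    intro μ hμ hs
    by_contra h0
    obtain ⟨i, h1, h2, h3⟩ := hcon μ h0 hμ
    apply h3
    apply hs
    push Not
    exact ⟨h1, h2⟩
  obtain ⟨i₀, hi₀⟩ := Function.ne_iff.mp hα0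
  obtain ⟨j₀, hj₀⟩ := Function.ne_iff.mp hβ0
  simp only [Pi.zero_apply] at hi₀ hj₀
  obtain ⟨G₁, hG₁, h1⟩ := fill _ hno (fun i => (Y i₀ - Y i) * (if i = j₀ then 1 else 0))
  obtain ⟨G₂, hG₂, h2⟩ := fill _ hno (fun i => (X i - X i₀) * (if i = j₀ then 1 else 0))
  set F : ℝ → ℝ → ℝ := (fun u v => (u - X i₀) * G₁ u v) + (fun u v => (v - Y i₀) * G₂ u v) with hFd
  have hF : F ∈ PF (d + 2) :=
    Submodule.add_mem _ (PF_sub_mul_left hG₁ _) (PF_sub_mul_right hG₂ _)
  have hF0 : ∀ i, (α i ≠ 0 ∨ β i ≠ 0) → F (X i) (Y i) = 0 := by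
    intro i hi
    simp only [hFd, Pi.add_apply, h1 i hi, h2 i hi]
    ring
  set s : I → ℝ := fun i => ∑ j, β j * (F (X j) (Y i) / ((X i - X j) * (Y i - Y j))) with hs
  set s' : I → ℝ := fun j => ∑ i, α i * (F (X i) (Y j) / ((X i - X j) * (Y i - Y j))) with hs'
  have hrel : Rel X Y (d + 1) (fun i => α i * s i + β i * s' i) := by
    intro a b hab
    have hQ : (fun u v : ℝ => u ^ a * v ^ b) ∈ PF (d + 1) := Submodule.subset_span ⟨a, b, hab, rfl⟩
    have key := ident hα hβ hX hY hF hQ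
    have e1 : ∀ i j, α i * β j * (numer F (fun u v : ℝ => u ^ a * v ^ b)
        (X i) (Y i) (X j) (Y j) / ((X i - X j) * (Y i - Y j)))
        = α i * (β j * (F (X j) (Y i) / ((X i - X j) * (Y i - Y j)))) * (X i ^ a * Y i ^ b)
          + β j * (α i * (F (X i) (Y j) / ((X i - X j) * (Y i - Y j)))) * (X j ^ a * Y j ^ b) := by
      intro i j
      by_cases hi : α i = 0
      · rw [hi]; ring
      by_cases hj : β j = 0
      · rw [hj]; ring
      simp only [numer, hF0 i (Or.inl hi), hF0 j (Or.inr hj)]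
      ring
    simp only [e1, Finset.sum_add_distrib] at key
    have e2 : ∑ i, ∑ j, α i * (β j * (F (X j) (Y i) / ((X i - X j) * (Y i - Y j))))
        * (X i ^ a * Y i ^ b) = ∑ i, α i * s i * (X i ^ a * Y i ^ b) := by
      refine Finset.sum_congr rfl fun i _ => ?_
      rw [← Finset.sum_mul, ← Finset.mul_sum]
    have e3 : ∑ i, ∑ j, β j * (α i * (F (X i) (Y j) / ((X i - X j) * (Y i - Y j))))
        * (X j ^ a * Y j ^ b) = ∑ j, β j * s' j * (X j ^ a * Y j ^ b) := by
      rw [Finset.sum_comm]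
      refine Finset.sum_congr rfl fun j _ => ?_
      rw [← Finset.sum_mul, ← Finset.mul_sum]
    rw [e2, e3, ← Finset.sum_add_distrib] at key
    rw [← key]
    refine Finset.sum_congr rfl fun i _ => by ring
  have hzero := hno _ hrel (by
    intro i hi
    push Not at hi
    rw [hi.1, hi.2]
    ring)
  have hs0 : s i₀ = - β j₀ := by
    have hy₀ : ∀ j, β j ≠ 0 → Y i₀ ≠ Y j := fun j hj => hY i₀ j hi₀ hj
    have hd := dd_kill hβ (Y i₀) hy₀ hG₁
    have e : ∀ j, β j * (F (X j) (Y i₀) / ((X i₀ - X j) * (Y i₀ - Y j)))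
        = -(β j * ((G₁ (X j) (Y i₀) - G₁ (X j) (Y j)) / (Y i₀ - Y j)))
          - β j * (if j = j₀ then 1 else 0) := by
      intro j
      by_cases hj : β j = 0
      · rw [hj]; ring
      have hx := sub_ne_zero.mpr (hX i₀ j hi₀ hj)
      have hy := sub_ne_zero.mpr (hy₀ j hj)
      have hF1 : F (X j) (Y i₀) = (X j - X i₀) * G₁ (X j) (Y i₀) := by
        simp only [hFd, Pi.add_apply, sub_self, zero_mul, add_zero]
      rw [hF1, h1 j (Or.inr hj)]
      field_simp
      ring
    simp only [hs, e, Finset.sum_sub_distrib, Finset.sum_neg_distrib, hd]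
    simp
  have h3 := congrFun hzero i₀
  simp only [Pi.zero_apply] at h3
  rcases hdisj i₀ with h4 | h4
  · exact hi₀ h4
  · rw [h4, hs0, zero_mul, add_zero] at h3
    rcases mul_eq_zero.mp h3 with h5 | h5
    · exact hi₀ h5
    · exact hj₀ (neg_eq_zero.mp h5)

theorem Rel.mono {X Y : I → ℝ} {s t : ℕ} (h : s ≤ t) {c : I → ℝ} (hc : Rel X Y t c) :
    Rel X Y s c := fun a b hab => hc a b (hab.trans h)

theorem Rel.mulX {X Y : I → ℝ} {t : ℕ} {c : I → ℝ} (hc : Rel X Y (t + 1) c) :
    Rel X Y t (fun i => c i * X i) := by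
  intro a b hab
  rw [← hc (a + 1) b (by omega)]
  refine Finset.sum_congr rfl fun i _ => by ring

theorem Rel.mulY {X Y : I → ℝ} {t : ℕ} {c : I → ℝ} (hc : Rel X Y (t + 1) c) :
    Rel X Y t (fun i => c i * Y i) := by
  intro a b hab
  rw [← hc a (b + 1) (by omega)]
  refine Finset.sum_congr rfl fun i _ => by ring

theorem Rel.sub {X Y : I → ℝ} {t : ℕ} {c e : I → ℝ} (hc : Rel X Y t c) (he : Rel X Y t e) (r : ℝ) :
    Rel X Y t (fun i => c i - r * e i) := by
  intro a b hab
  have e1 : ∀ i, (c i - r * e i) * (X i ^ a * Y i ^ b)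
      = c i * (X i ^ a * Y i ^ b) - r * (e i * (X i ^ a * Y i ^ b)) := fun i => by ring
  simp only [e1, Finset.sum_sub_distrib, ← Finset.mul_sum, hc a b hab, he a b hab]
  ring

/-- Below every nonzero relation there is one of minimal support; every relation supported there
is a multiple of it. -/
theorem exists_min_rel {X Y : I → ℝ} {t : ℕ} {α : I → ℝ} (hα : Rel X Y t α) (h0 : α ≠ 0) :
    ∃ α' : I → ℝ, α' ≠ 0 ∧ Rel X Y t α' ∧ (∀ i, α i = 0 → α' i = 0) ∧
      ∀ ν : I → ℝ, Rel X Y t ν → (∀ i, α' i = 0 → ν i = 0) → ∃ c : ℝ, ∀ i, ν i = c * α' i := by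
  classical
  induction hn : (univ.filter (fun i => α i ≠ 0)).card using Nat.strong_induction_on
    generalizing α with
  | _ n ih =>
    by_cases hall : ∀ ν : I → ℝ, Rel X Y t ν → (∀ i, α i = 0 → ν i = 0) →
        ∃ c : ℝ, ∀ i, ν i = c * α i
    · exact ⟨α, h0, hα, fun _ h => h, hall⟩
    · push Not at hall
      obtain ⟨ν, hν, hs, hc⟩ := hall
      obtain ⟨i₀, hi₀⟩ := Function.ne_iff.mp h0
      simp only [Pi.zero_apply] at hi₀
      set κ : I → ℝ := fun i => ν i - (ν i₀ / α i₀) * α i with hκ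
      have hκR : Rel X Y t κ := hν.sub hα _
      have hκ0 : κ ≠ 0 := by
        obtain ⟨i, hi⟩ := hc (ν i₀ / α i₀)
        intro h
        apply hi
        have := congrFun h i
        simp only [hκ, Pi.zero_apply] at this
        linarith
      have hκs : ∀ i, α i = 0 → κ i = 0 := by
        intro i hi
        simp only [hκ, hs i hi, hi]
        ring
      have hlt : (univ.filter (fun i => κ i ≠ 0)).card < n := by
        rw [← hn]
        apply Finset.card_lt_card
        rw [Finset.ssubset_iff_of_subset]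
        · refine ⟨i₀, by simpa using hi₀, ?_⟩
          simp only [mem_filter, mem_univ, true_and, not_not, hκ]
          field_simp
          ring
        · intro i hi
          simp only [mem_filter, mem_univ, true_and] at hi ⊢
          exact fun h => hi (hκs i h)
      obtain ⟨α', h1, h2, h3, h4⟩ := ih _ hlt hκR hκ0 rfl
      exact ⟨α', h1, h2, fun i hi => h3 i (hκs i hi), h4⟩

/-- (C) in generic coordinates. -/
theorem nonskew_generic {X Y : I → ℝ} {d : ℕ} {α β : I → ℝ} (hα : Rel X Y d α)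
    (hβ : Rel X Y d β) (hdisj : ∀ i, α i = 0 ∨ β i = 0) (hα0 : α ≠ 0) (hβ0 : β ≠ 0)
    (hX : Function.Injective X) (hY : Function.Injective Y) :
    ∃ α₁ β₁ : I → ℝ, (∀ i, α i = 0 → α₁ i = 0) ∧ (∀ i, β i = 0 → β₁ i = 0) ∧
      (∀ a b : ℕ, a + b ≤ d → ∑ i, α₁ i * (X i ^ a * Y i ^ b) = ∑ i, β₁ i * (X i ^ a * Y i ^ b)) ∧
      ¬ Rel X Y d α₁ := by
  classical
  by_contra hcon
  push Not at hcon
  -- skewness
  have skew : ∀ α₁ β₁ : I → ℝ, (∀ i, α i = 0 → α₁ i = 0) → (∀ i, β i = 0 → β₁ i = 0) →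
      Rel X Y d (fun i => α₁ i + β₁ i) → Rel X Y d α₁ ∧ Rel X Y d β₁ := by
    intro α₁ β₁ h1 h2 h3
    have hA : Rel X Y d α₁ := by
      refine hcon α₁ (fun i => - β₁ i) h1 (fun i hi => by rw [h2 i hi, neg_zero]) ?_
      intro a b hab
      have := h3 a b hab
      simp only [add_mul, Finset.sum_add_distrib] at this
      simp only [neg_mul, Finset.sum_neg_distrib]
      linarith
    refine ⟨hA, fun a b hab => ?_⟩
    have := h3 a b hab
    simp only [add_mul, Finset.sum_add_distrib, hA a b hab, zero_add] at this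
    exact this
  obtain ⟨α', hα'0, hα', hαs, hαmin⟩ := exists_min_rel hα hα0
  obtain ⟨β', hβ'0, hβ', hβs, hβmin⟩ := exists_min_rel hβ hβ0
  have hdisj' : ∀ i, α' i = 0 ∨ β' i = 0 := fun i => (hdisj i).imp (hαs i) (hβs i)
  have hne : ∀ i j, α' i ≠ 0 → β' j ≠ 0 → i ≠ j := by
    rintro i j hi hj rfl
    rcases hdisj' i with h | h
    · exact hi h
    · exact hj h
  obtain ⟨μ, hμ0, hμ, hμs⟩ := exists_rel_succ hα' hβ' hdisj' hα'0 hβ'0
    (fun i j hi hj h => hne i j hi hj (hX h)) (fun i j hi hj h => hne i j hi hj (hY h))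
  -- a single point is independent
  have single : ∀ (γ : I → ℝ), γ ≠ 0 → Rel X Y d γ →
      (∀ ν : I → ℝ, Rel X Y d ν → (∀ i, γ i = 0 → ν i = 0) → ∃ c : ℝ, ∀ i, ν i = c * γ i) →
      ∀ ν : I → ℝ, (∀ i, γ i = 0 → ν i = 0) → Rel X Y d ν → Rel X Y d (fun i => ν i * X i) →
      ν = 0 := by
    intro γ hγ0 hγ hmin ν hν h1 h2
    obtain ⟨c₁, hc₁⟩ := hmin ν h1 hν
    obtain ⟨c₂, hc₂⟩ := hmin _ h2 (fun i hi => by rw [hν i hi, zero_mul])
    by_contra hν0
    have hc0 : c₁ ≠ 0 := by
      rintro rfl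
      apply hν0
      funext i
      rw [hc₁ i, zero_mul, Pi.zero_apply]
    have hconst : ∀ i, γ i ≠ 0 → X i = c₂ / c₁ := by
      intro i hi
      have e := hc₂ i
      rw [hc₁ i] at e
      rw [eq_div_iff hc0]
      apply mul_right_cancel₀ hi
      linarith
    obtain ⟨i₀, hi₀⟩ := Function.ne_iff.mp hγ0
    simp only [Pi.zero_apply] at hi₀
    have hs := hγ 0 0 (Nat.zero_le _)
    simp only [pow_zero, mul_one] at hs
    rw [Finset.sum_eq_single i₀ ?_ ?_] at hs
    · exact hi₀ hs
    · intro j _ hj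
      by_contra h
      exact hj (hX ((hconst j h).trans (hconst i₀ hi₀).symm))
    · intro h
      exact absurd (mem_univ _) h
  set μ₁ : I → ℝ := fun i => if α' i = 0 then 0 else μ i with hμ₁
  set μ₂ : I → ℝ := fun i => if α' i = 0 then μ i else 0 with hμ₂
  have hμ₁s : ∀ i, α' i = 0 → μ₁ i = 0 := fun i hi => by simp only [hμ₁, if_pos hi]
  have hμ₂s : ∀ i, β' i = 0 → μ₂ i = 0 := by
    intro i hi
    by_cases h : α' i = 0
    · simp only [hμ₂, if_pos h]
      exact hμs i h hi
    · simp only [hμ₂, if_neg h]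
  have hsplit : ∀ i, μ i = μ₁ i + μ₂ i := by
    intro i
    by_cases h : α' i = 0
    · simp only [hμ₁, hμ₂, if_pos h, zero_add]
    · simp only [hμ₁, hμ₂, if_neg h, add_zero]
  have k1 := skew μ₁ μ₂ (fun i hi => hμ₁s i (hαs i hi)) (fun i hi => hμ₂s i (hβs i hi)) (by
    have := hμ.mono (Nat.le_succ d)
    intro a b hab
    rw [← this a b hab]
    exact Finset.sum_congr rfl fun i _ => by rw [hsplit i])
  have k2 := skew (fun i => μ₁ i * X i) (fun i => μ₂ i * X i)
    (fun i hi => by rw [hμ₁s i (hαs i hi), zero_mul])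
    (fun i hi => by rw [hμ₂s i (hβs i hi), zero_mul]) (by
    have := hμ.mulX
    intro a b hab
    rw [← this a b hab]
    refine Finset.sum_congr rfl fun i _ => ?_
    show (μ₁ i * X i + μ₂ i * X i) * (X i ^ a * Y i ^ b) = (μ i * X i) * (X i ^ a * Y i ^ b)
    rw [hsplit i]
    ring)
  have z1 := single α' hα'0 hα' hαmin μ₁ hμ₁s k1.1 k2.1
  have z2 := single β' hβ'0 hβ' hβmin μ₂ hμ₂s k1.2 k2.2
  apply hμ0
  funext i
  rw [hsplit i, z1, z2]
  simp

/-- Functions on the points given by polynomials of degree at most `t`. -/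
def WF (X Y : I → ℝ) (t : ℕ) : Submodule ℝ (I → ℝ) :=
  Submodule.span ℝ {g | ∃ a b : ℕ, a + b ≤ t ∧ g = fun i => X i ^ a * Y i ^ b}

omit [Fintype I] in
theorem WF_mono (X Y : I → ℝ) {s t : ℕ} (h : s ≤ t) : WF X Y s ≤ WF X Y t := by
  apply Submodule.span_mono
  rintro g ⟨a, b, hab, rfl⟩
  exact ⟨a, b, hab.trans h, rfl⟩

omit [Fintype I] in
theorem WF_mul {X Y : I → ℝ} {t : ℕ} {g : I → ℝ} (hg : g ∈ WF X Y t) (r s : ℝ) :
    (fun i => (r * X i + s * Y i) * g i) ∈ WF X Y (t + 1) := by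
  induction hg using Submodule.span_induction with
  | mem g hg =>
    obtain ⟨a, b, hab, rfl⟩ := hg
    have e : (fun i => (r * X i + s * Y i) * (X i ^ a * Y i ^ b))
        = r • (fun i => X i ^ (a + 1) * Y i ^ b) + s • (fun i => X i ^ a * Y i ^ (b + 1)) := by
      funext i
      simp only [Pi.add_apply, Pi.smul_apply, smul_eq_mul]
      ring
    rw [e]
    exact Submodule.add_mem _
      (Submodule.smul_mem _ _ (Submodule.subset_span ⟨a + 1, b, by omega, rfl⟩))
      (Submodule.smul_mem _ _ (Submodule.subset_span ⟨a, b + 1, by omega, rfl⟩))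
  | zero =>
    have e : (fun i => (r * X i + s * Y i) * (0 : I → ℝ) i) = 0 := by
      funext i
      simp
    rw [e]
    exact Submodule.zero_mem _
  | add x y _ _ hx hy =>
    have e : (fun i => (r * X i + s * Y i) * (x + y) i)
        = (fun i => (r * X i + s * Y i) * x i) + (fun i => (r * X i + s * Y i) * y i) := by
      funext i
      simp only [Pi.add_apply]
      ring
    rw [e]
    exact Submodule.add_mem _ hx hy
  | smul k x _ hx =>
    have e : (fun i => (r * X i + s * Y i) * (k • x) i)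
        = k • (fun i => (r * X i + s * Y i) * x i) := by
      funext i
      simp only [Pi.smul_apply, smul_eq_mul]
      ring
    rw [e]
    exact Submodule.smul_mem _ _ hx

theorem Rel.wf {X Y : I → ℝ} {t : ℕ} {c : I → ℝ} (h : Rel X Y t c) {g : I → ℝ}
    (hg : g ∈ WF X Y t) : ∑ i, c i * g i = 0 := by
  induction hg using Submodule.span_induction with
  | mem x hx =>
    obtain ⟨a, b, hab, rfl⟩ := hx
    exact h a b hab
  | zero => simp
  | add x y _ _ hx hy =>
    simp only [Pi.add_apply, mul_add, Finset.sum_add_distrib, hx, hy, add_zero]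
  | smul r x _ hx =>
    simp only [Pi.smul_apply, smul_eq_mul]
    have : ∀ i, c i * (r * x i) = r * (c i * x i) := fun i => by ring
    simp only [this, ← Finset.mul_sum, hx, mul_zero]

omit [Fintype I] in
/-- Monomials in linear forms of `X`, `Y` lie in `WF`. -/
theorem lin_pow_mem (X Y : I → ℝ) (r s r' s' : ℝ) (a b : ℕ) :
    (fun i => (r * X i + s * Y i) ^ a * (r' * X i + s' * Y i) ^ b) ∈ WF X Y (a + b) := by
  induction b with
  | zero =>
    induction a with
    | zero =>
      refine Submodule.subset_span ⟨0, 0, by omega, ?_⟩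
      funext i
      simp
    | succ a ih =>
      have h := WF_mul ih r s
      have e : (fun i => (r * X i + s * Y i) ^ (a + 1) * (r' * X i + s' * Y i) ^ 0)
          = (fun i => (r * X i + s * Y i) * ((r * X i + s * Y i) ^ a * (r' * X i + s' * Y i) ^ 0)) := by
        funext i
        ring
      rw [e]
      exact h
  | succ b ih =>
    have h := WF_mul ih r' s'
    have e : (fun i => (r * X i + s * Y i) ^ a * (r' * X i + s' * Y i) ^ (b + 1))
        = (fun i => (r' * X i + s' * Y i) * ((r * X i + s * Y i) ^ a * (r' * X i + s' * Y i) ^ b)) := by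
      funext i
      ring
    rw [e]
    exact h

/-- Relations are invariant under linear changes of the coordinates. -/
theorem Rel.lin {X Y : I → ℝ} {t : ℕ} {c : I → ℝ} (h : Rel X Y t c) (r s r' s' : ℝ) :
    Rel (fun i => r * X i + s * Y i) (fun i => r' * X i + s' * Y i) t c := by
  intro a b hab
  exact h.wf (WF_mono X Y hab (lin_pow_mem X Y r s r' s' a b))

/-- A generic number: avoid finitely many zeros. -/
theorem exists_generic (X Y : I → ℝ) (hXY : Function.Injective (fun i => (X i, Y i))) :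
    ∃ s : ℝ, Function.Injective (fun i => X i + s * Y i) := by
  classical
  obtain ⟨s, hs⟩ := Infinite.exists_notMem_finset
    ((univ : Finset (I × I)).image (fun p => - (X p.1 - X p.2) / (Y p.1 - Y p.2)))
  refine ⟨s, fun i j hij => ?_⟩
  simp only [mem_image, mem_univ, true_and, not_exists] at hs
  simp only at hij
  by_cases hy : Y i = Y j
  · apply hXY
    rw [hy] at hij
    simp only [Prod.mk.injEq]
    exact ⟨by linarith, hy⟩
  · exfalso
    apply hs (i, j)
    have := sub_ne_zero.mpr hy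
    simp only
    rw [div_eq_iff this]
    linarith

/-- **(C) for the plane Veronese matroids.** Two disjointly supported nonzero relations of degree
`d` between distinct points of the plane are not skew. -/
theorem nonskew {X Y : I → ℝ} (hXY : Function.Injective (fun i => (X i, Y i))) {d : ℕ}
    {α β : I → ℝ} (hα : Rel X Y d α) (hβ : Rel X Y d β) (hdisj : ∀ i, α i = 0 ∨ β i = 0)
    (hα0 : α ≠ 0) (hβ0 : β ≠ 0) :
    ∃ α₁ β₁ : I → ℝ, (∀ i, α i = 0 → α₁ i = 0) ∧ (∀ i, β i = 0 → β₁ i = 0) ∧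
      (∀ a b : ℕ, a + b ≤ d → ∑ i, α₁ i * (X i ^ a * Y i ^ b) = ∑ i, β₁ i * (X i ^ a * Y i ^ b)) ∧
      ¬ Rel X Y d α₁ := by
  obtain ⟨s, hs⟩ := exists_generic X Y hXY
  obtain ⟨s', hs'⟩ := exists_generic Y (fun i => X i + s * Y i) (by
    intro i j hij
    simp only [Prod.mk.injEq] at hij
    apply hs
    exact hij.2)
  have e1 : (fun i => 1 * X i + s * Y i) = fun i => X i + s * Y i := by
    funext i
    ring
  have e2 : (fun i => s' * X i + (1 + s' * s) * Y i) = fun i => Y i + s' * (X i + s * Y i) := by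
    funext i
    ring
  have e3 : (fun i => (1 + s * s') * (X i + s * Y i) + (-s) * (Y i + s' * (X i + s * Y i))) = X := by
    funext i
    ring
  have e4 : (fun i => (-s') * (X i + s * Y i) + 1 * (Y i + s' * (X i + s * Y i))) = Y := by
    funext i
    ring
  have fwd : ∀ c : I → ℝ, Rel X Y d c →
      Rel (fun i => X i + s * Y i) (fun i => Y i + s' * (X i + s * Y i)) d c := by
    intro c hc
    have := hc.lin 1 s s' (1 + s' * s)
    rwa [e1, e2] at this
  have bwd : ∀ c : I → ℝ,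
      Rel (fun i => X i + s * Y i) (fun i => Y i + s' * (X i + s * Y i)) d c → Rel X Y d c := by
    intro c hc
    have := hc.lin (1 + s * s') (-s) (-s') 1
    rwa [e3, e4] at this
  obtain ⟨α₁, β₁, h1, h2, h3, h4⟩ := nonskew_generic (fwd α hα) (fwd β hβ) hdisj hα0 hβ0 hs hs'
  refine ⟨α₁, β₁, h1, h2, ?_, fun h => h4 (fwd _ h)⟩
  have h5 : Rel (fun i => X i + s * Y i) (fun i => Y i + s' * (X i + s * Y i)) d
      (fun i => α₁ i - 1 * β₁ i) := by
    intro a b hab
    have := h3 a b hab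
    have e : ∀ i, (α₁ i - 1 * β₁ i) * ((X i + s * Y i) ^ a * (Y i + s' * (X i + s * Y i)) ^ b)
        = α₁ i * ((X i + s * Y i) ^ a * (Y i + s' * (X i + s * Y i)) ^ b)
          - β₁ i * ((X i + s * Y i) ^ a * (Y i + s' * (X i + s * Y i)) ^ b) := fun i => by ring
    simp only [e, Finset.sum_sub_distrib, this, sub_self]
  have h6 := bwd _ h5
  intro a b hab
  have h7 := h6 a b hab
  have e : ∀ i, (α₁ i - 1 * β₁ i) * (X i ^ a * Y i ^ b)
      = α₁ i * (X i ^ a * Y i ^ b) - β₁ i * (X i ^ a * Y i ^ b) := fun i => by ring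
  simp only [e, Finset.sum_sub_distrib] at h7
  linarith

/-- Relations in terms of polynomials. -/
theorem rel_iff_poly {X Y : I → ℝ} {t : ℕ} {c : I → ℝ} :
    Rel X Y t c ↔ ∀ q : MvPolynomial (Fin 2) ℝ, q.totalDegree ≤ t →
      ∑ i, c i * MvPolynomial.eval ![X i, Y i] q = 0 := by
  constructor
  · intro h q hq
    have e : ∀ i, MvPolynomial.eval ![X i, Y i] q
        = ∑ m ∈ q.support, q.coeff m * (X i ^ (m 0) * Y i ^ (m 1)) := by
      intro i
      rw [MvPolynomial.eval_eq']
      refine Finset.sum_congr rfl fun m _ => ?_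
      rw [Fin.prod_univ_two]
      rfl
    have e2 : ∑ i, c i * MvPolynomial.eval ![X i, Y i] q
        = ∑ m ∈ q.support, q.coeff m * ∑ i, c i * (X i ^ (m 0) * Y i ^ (m 1)) := by
      simp only [e, Finset.mul_sum]
      rw [Finset.sum_comm]
      refine Finset.sum_congr rfl fun m _ => Finset.sum_congr rfl fun i _ => by ring
    rw [e2]
    refine Finset.sum_eq_zero fun m hm => ?_
    have hdeg := MvPolynomial.le_totalDegree hm
    rw [Finsupp.sum_fintype _ _ (fun _ => rfl), Fin.sum_univ_two] at hdeg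
    rw [h (m 0) (m 1) (hdeg.trans hq), mul_zero]
  · intro h a b hab
    have := h (MvPolynomial.X 0 ^ a * MvPolynomial.X 1 ^ b) (by
      refine (MvPolynomial.totalDegree_mul _ _).trans ?_
      rw [MvPolynomial.totalDegree_X_pow, MvPolynomial.totalDegree_X_pow]
      exact hab)
    rw [← this]
    refine Finset.sum_congr rfl fun i _ => ?_
    simp

/-- **(C), polynomial form.** -/
theorem nonskew_poly {X Y : I → ℝ} (hXY : Function.Injective (fun i => (X i, Y i))) {d : ℕ}
    {α β : I → ℝ} (hdisj : ∀ i, α i = 0 ∨ β i = 0) (hα0 : α ≠ 0) (hβ0 : β ≠ 0)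
    (hα : ∀ q : MvPolynomial (Fin 2) ℝ, q.totalDegree ≤ d →
      ∑ i, α i * MvPolynomial.eval ![X i, Y i] q = 0)
    (hβ : ∀ q : MvPolynomial (Fin 2) ℝ, q.totalDegree ≤ d →
      ∑ i, β i * MvPolynomial.eval ![X i, Y i] q = 0) :
    ∃ α₁ β₁ : I → ℝ, (∀ i, α i = 0 → α₁ i = 0) ∧ (∀ i, β i = 0 → β₁ i = 0) ∧
      (∀ q : MvPolynomial (Fin 2) ℝ, q.totalDegree ≤ d →
        ∑ i, α₁ i * MvPolynomial.eval ![X i, Y i] q
          = ∑ i, β₁ i * MvPolynomial.eval ![X i, Y i] q) ∧
      ∃ q : MvPolynomial (Fin 2) ℝ, q.totalDegree ≤ d ∧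
        ∑ i, α₁ i * MvPolynomial.eval ![X i, Y i] q ≠ 0 := by
  obtain ⟨α₁, β₁, h1, h2, h3, h4⟩ :=
    nonskew hXY (rel_iff_poly.mpr hα) (rel_iff_poly.mpr hβ) hdisj hα0 hβ0
  refine ⟨α₁, β₁, h1, h2, ?_, ?_⟩
  · intro q hq
    have h5 : Rel X Y d (fun i => α₁ i - β₁ i) := by
      intro a b hab
      have h6 := h3 a b hab
      have e : ∀ i, (α₁ i - β₁ i) * (X i ^ a * Y i ^ b)
          = α₁ i * (X i ^ a * Y i ^ b) - β₁ i * (X i ^ a * Y i ^ b) := fun i => by ring
      simp only [e, Finset.sum_sub_distrib, h6, sub_self]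
    have h7 := rel_iff_poly.mp h5 q hq
    have e : ∀ i, (α₁ i - β₁ i) * MvPolynomial.eval ![X i, Y i] q
        = α₁ i * MvPolynomial.eval ![X i, Y i] q - β₁ i * MvPolynomial.eval ![X i, Y i] q :=
      fun i => by ring
    simp only [e, Finset.sum_sub_distrib] at h7
    linarith
  · by_contra hcon
    push Not at hcon
    exact h4 (rel_iff_poly.mpr hcon)

end Pool.Agent.A50277

/-- Part C of MP_a50277_co. -/
theorem WW.affineC : WW.AffineC := by
  intro I _ u v huv d a b ha hb hdisj hra hrb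
  obtain ⟨a', b', h1, h2, h3, h4⟩ := Pool.Agent.A50277.nonskew (X := u) (Y := v) (d := d)
    (α := a) (β := b)
    (fun i j hij => by
      simp only [Prod.mk.injEq] at hij
      exact huv i j hij.1 hij.2) hra hrb hdisj ha hb
  refine ⟨a', b', h1, h2, h3, ?_⟩
  unfold Pool.Agent.A50277.Rel at h4
  push Not at h4
  exact h4
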