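import Mathlib

/-!
# MP_a50277_co (Wiseman-Wilson): Claim I (a connected arrangement has an interior vertex)
-/

set_option autoImplicit false

namespace WW

open Module Submodule

section defs

variable {T : Type*} [AddCommGroup T] [Module ℝ T] {I : Type*}

/-- `x` is a vertex of the family `n i`, `i ∈ S`: it is nonzero and determined up to a scalar by the
functionals of the family which kill it. -/
def IsVert (n : I → Dual ℝ T) (S : Finset I) (x : T) : Prop :=
  x ≠ 0 ∧ ∀ g : T, (∀ i ∈ S, n i x = 0 → n i g = 0) → ∃ c : ℝ, g = c • x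

/-- The family `n i`, `i ∈ S`, is connected (as a matroid). -/
def Conn [DecidableEq I] (n : I → Dual ℝ T) (S : Finset I) : Prop :=
  ∀ A B : Finset I, A.Nonempty → B.Nonempty → Disjoint A B → A ∪ B = S →
    ¬ Disjoint (span ℝ (n '' (A : Set I))) (span ℝ (n '' (B : Set I)))

/-- Restriction of the family to the kernel of `n e`. -/
def res (n : I → Dual ℝ T) (e : I) : I → Dual ℝ (LinearMap.ker (n e)) :=
  fun i => (n i).domRestrict (LinearMap.ker (n e))

end defs

variable {T : Type*} [AddCommGroup T] [Module ℝ T] {I : Type*}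

theorem res_apply (n : I → Dual ℝ T) (e i : I) (x : LinearMap.ker (n e)) :
    res n e i x = n i (x : T) := rfl

theorem IsVert.mono {n : I → Dual ℝ T} {S S' : Finset I} (h : S' ⊆ S) {x : T}
    (hx : IsVert n S' x) : IsVert n S x :=
  ⟨hx.1, fun g hg => hx.2 g (fun i hi => hg i (h hi))⟩

theorem IsVert.smul {n : I → Dual ℝ T} {S : Finset I} {x : T}
    (hx : IsVert n S x) {c : ℝ} (hc : c ≠ 0) : IsVert n S (c • x) := by
  refine ⟨smul_ne_zero hc hx.1, fun g hg => ?_⟩
  obtain ⟨b, hb⟩ := hx.2 g (fun i hi h => hg i hi (by rw [map_smul, h, smul_zero]))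
  exact ⟨b * c⁻¹, by rw [smul_smul, mul_assoc, inv_mul_cancel₀ hc, mul_one, hb]⟩

theorem isVert_of_res [DecidableEq I] {n : I → Dual ℝ T} {S : Finset I} {e : I}
    (he : e ∈ S) {x : LinearMap.ker (n e)} (hx : IsVert (res n e) (S.erase e) x) :
    IsVert n S (x : T) := by
  refine ⟨fun h => hx.1 (Subtype.ext h), fun g hg => ?_⟩
  have hge : g ∈ LinearMap.ker (n e) := hg e he x.2
  obtain ⟨c, hc⟩ := hx.2 ⟨g, hge⟩ (fun i hi h => hg i (Finset.mem_of_mem_erase hi) h)
  exact ⟨c, congrArg Subtype.val hc⟩

/-- a functional which vanishes on the kernel of `a` is a multiple of `a`. -/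
theorem eq_smul_of_ker (a φ : Dual ℝ T) (h : ∀ x, a x = 0 → φ x = 0) : ∃ c : ℝ, φ = c • a := by
  by_cases ha : a = 0
  · refine ⟨0, LinearMap.ext (fun x => ?_)⟩
    rw [zero_smul]
    exact h x (by rw [ha]; rfl)
  · obtain ⟨u, hu⟩ : ∃ u, a u ≠ 0 := by
      by_contra hcon
      push Not at hcon
      exact ha (LinearMap.ext hcon)
    refine ⟨φ u / a u, LinearMap.ext (fun x => ?_)⟩
    have h1 := h (x - (a x / a u) • u) (by
      rw [map_sub, map_smul, smul_eq_mul, div_mul_cancel₀ _ hu, sub_self])
    rw [map_sub, map_smul, smul_eq_mul, sub_eq_zero] at h1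
    rw [h1, LinearMap.smul_apply, smul_eq_mul]
    ring

/-! ### Tutte's lemma -/

theorem span_union' [DecidableEq I] (n : I → Dual ℝ T) (A B : Finset I) :
    span ℝ (n '' ((A ∪ B : Finset I) : Set I)) =
      span ℝ (n '' (A : Set I)) ⊔ span ℝ (n '' (B : Set I)) := by
  rw [Finset.coe_union, Set.image_union, span_union]

theorem span_mono' (n : I → Dual ℝ T) {A B : Finset I} (h : A ⊆ B) :
    span ℝ (n '' (A : Set I)) ≤ span ℝ (n '' (B : Set I)) :=
  span_mono (Set.image_mono (by exact_mod_cast h))

theorem submod [FiniteDimensional ℝ T] [DecidableEq I] (n : I → Dual ℝ T) (A B : Finset I) :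
    finrank ℝ (span ℝ (n '' ((A ∪ B : Finset I) : Set I))) +
      finrank ℝ (span ℝ (n '' ((A ∩ B : Finset I) : Set I))) ≤
    finrank ℝ (span ℝ (n '' (A : Set I))) + finrank ℝ (span ℝ (n '' (B : Set I))) := by
  rw [← Submodule.finrank_sup_add_finrank_inf_eq (span ℝ (n '' (A : Set I))), ← span_union']
  exact Nat.add_le_add_left (Submodule.finrank_mono
    (le_inf (span_mono' n Finset.inter_subset_left) (span_mono' n Finset.inter_subset_right))) _

theorem Conn.rank [FiniteDimensional ℝ T] [DecidableEq I] {n : I → Dual ℝ T} {S : Finset I}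
    (h : Conn n S) {A B : Finset I} (hA : A.Nonempty) (hB : B.Nonempty) (hd : Disjoint A B)
    (hU : A ∪ B = S) :
    finrank ℝ (span ℝ (n '' (S : Set I))) + 1 ≤
      finrank ℝ (span ℝ (n '' (A : Set I))) + finrank ℝ (span ℝ (n '' (B : Set I))) := by
  rw [← Submodule.finrank_sup_add_finrank_inf_eq, ← span_union', hU]
  have h1 := h A B hA hB hd hU
  rw [disjoint_iff] at h1
  have h2 : 0 < finrank ℝ
      ((span ℝ (n '' (A : Set I)) ⊓ span ℝ (n '' (B : Set I)) : Submodule ℝ (Dual ℝ T))) := by
    rw [Nat.pos_iff_ne_zero]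
    intro h3
    exact h1 (Submodule.finrank_eq_zero.1 h3)
  omega

/-- For a connected family every element is in the span of the others. -/
theorem Conn.mem_span [DecidableEq I] {n : I → Dual ℝ T} {S : Finset I}
    (h : Conn n S) {e : I} (he : e ∈ S) (hne : (S.erase e).Nonempty) :
    n e ∈ span ℝ (n '' ((S.erase e : Finset I) : Set I)) := by
  have h1 := h {e} (S.erase e) (Finset.singleton_nonempty e) hne
    (Finset.disjoint_singleton_left.2 (Finset.notMem_erase e S))
    (by rw [← Finset.insert_eq, Finset.insert_erase he])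
  rw [Submodule.disjoint_def] at h1
  push Not at h1
  obtain ⟨y, hy1, hy2, hy3⟩ := h1
  rw [Finset.coe_singleton, Set.image_singleton, mem_span_singleton] at hy1
  obtain ⟨c, rfl⟩ := hy1
  have hc : c ≠ 0 := fun h => hy3 (by rw [h, zero_smul])
  have := Submodule.smul_mem _ c⁻¹ hy2
  rwa [smul_smul, inv_mul_cancel₀ hc, one_smul] at this

/-- Tutte: if `N` is connected, then `N - e` or `N / e` is. -/
theorem tutte [FiniteDimensional ℝ T] [DecidableEq I] {n : I → Dual ℝ T} {S : Finset I}
    (h : Conn n S) {e : I} (he : e ∈ S) : Conn n (S.erase e) ∨ Conn (res n e) (S.erase e) := by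
  by_contra hcon
  rw [not_or] at hcon
  obtain ⟨h1, h2⟩ := hcon
  unfold Conn at h1 h2
  push Not at h1 h2
  obtain ⟨A, B, hA, hB, hAB, hU, hdis⟩ := h1
  obtain ⟨C, D, hC, hD, hCD, hU', hdis'⟩ := h2
  have heA : e ∉ A := fun h => Finset.notMem_erase e S (hU ▸ Finset.mem_union_left _ h)
  have heB : e ∉ B := fun h => Finset.notMem_erase e S (hU ▸ Finset.mem_union_right _ h)
  have heC : e ∉ C := fun h => Finset.notMem_erase e S (hU' ▸ Finset.mem_union_left _ h)
  have heD : e ∉ D := fun h => Finset.notMem_erase e S (hU' ▸ Finset.mem_union_right _ h)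
  -- rank of A, B
  have r1 : finrank ℝ (span ℝ (n '' (A : Set I))) + finrank ℝ (span ℝ (n '' (B : Set I))) ≤
      finrank ℝ (span ℝ (n '' (S : Set I))) := by
    rw [← Submodule.finrank_sup_add_finrank_inf_eq, ← span_union', hU, disjoint_iff.1 hdis]
    rw [finrank_bot, add_zero]
    exact Submodule.finrank_mono (span_mono' n (Finset.erase_subset _ _))
  -- rank of C + e, D + e
  have r2 : finrank ℝ (span ℝ (n '' ((insert e C : Finset I) : Set I))) +
      finrank ℝ (span ℝ (n '' ((insert e D : Finset I) : Set I))) ≤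
      finrank ℝ (span ℝ (n '' (S : Set I))) + 1 := by
    rw [← Submodule.finrank_sup_add_finrank_inf_eq, ← span_union']
    have hS : insert e C ∪ insert e D = S := by
      rw [Finset.insert_union, Finset.union_insert, hU', Finset.insert_idem, Finset.insert_erase he]
    rw [hS]
    refine Nat.add_le_add_left ?_ _
    let ρ : Dual ℝ T →ₗ[ℝ] Dual ℝ (LinearMap.ker (n e)) :=
      (LinearMap.ker (n e)).subtype.dualMap
    have hρ : ∀ i, ρ (n i) = res n e i := fun i => rfl
    have hρe : ρ (n e) = 0 := by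
      ext x
      exact x.2
    have hmap : ∀ X : Finset I, ∀ y ∈ span ℝ (n '' ((insert e X : Finset I) : Set I)),
        ρ y ∈ span ℝ (res n e '' (X : Set I)) := by
      intro X y hy
      have h3 : ρ y ∈ Submodule.map ρ (span ℝ (n '' ((insert e X : Finset I) : Set I))) :=
        Submodule.mem_map_of_mem hy
      rw [Submodule.map_span] at h3
      refine Submodule.span_le.2 ?_ h3
      rintro _ ⟨_, ⟨i, hi, rfl⟩, rfl⟩
      rw [Finset.mem_coe, Finset.mem_insert] at hi
      rcases hi with rfl | hi
      · rw [hρe]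
        exact Submodule.zero_mem _
      · exact subset_span ⟨i, hi, rfl⟩
    have hle : (span ℝ (n '' ((insert e C : Finset I) : Set I)) ⊓
        span ℝ (n '' ((insert e D : Finset I) : Set I)) : Submodule ℝ (Dual ℝ T)) ≤
        span ℝ {n e} := by
      rintro y ⟨hy1, hy2⟩
      have h3 := Submodule.disjoint_def.1 hdis' _ (hmap C y hy1) (hmap D y hy2)
      obtain ⟨c, hc⟩ := eq_smul_of_ker (n e) y (fun x hx => by
        have := LinearMap.congr_fun h3 (⟨x, hx⟩ : LinearMap.ker (n e))
        exact this)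
      rw [hc]
      exact Submodule.smul_mem _ _ (mem_span_singleton_self _)
    refine (Submodule.finrank_mono hle).trans ?_
    refine (finrank_span_le_card ({n e} : Set (Dual ℝ T))).trans ?_
    simp
  -- the main inequality
  have main : ∀ A B C D : Finset I, e ∉ A → e ∉ B → e ∉ C → e ∉ D → A ∪ B = S.erase e →
      C ∪ D = S.erase e → Disjoint A B → Disjoint C D →
      finrank ℝ (span ℝ (n '' (A : Set I))) + finrank ℝ (span ℝ (n '' (B : Set I))) ≤
        finrank ℝ (span ℝ (n '' (S : Set I))) →
      finrank ℝ (span ℝ (n '' ((insert e C : Finset I) : Set I))) +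
        finrank ℝ (span ℝ (n '' ((insert e D : Finset I) : Set I))) ≤
        finrank ℝ (span ℝ (n '' (S : Set I))) + 1 → A ∩ C = ∅ ∨ B ∩ D = ∅ := by
    intro A B C D heA heB heC heD hU hU' hAB hCD r1 r2
    by_contra hcon
    rw [not_or] at hcon
    obtain ⟨h3, h4⟩ := hcon
    rw [← Ne, ← Finset.nonempty_iff_ne_empty] at h3 h4
    have s1 := submod n A (insert e C)
    have s2 := submod n B (insert e D)
    have e1 : A ∩ insert e C = A ∩ C := by
      ext i
      simp only [Finset.mem_inter, Finset.mem_insert]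
      constructor
      · rintro ⟨ha, rfl | hc⟩
        · exact absurd ha heA
        · exact ⟨ha, hc⟩
      · rintro ⟨ha, hc⟩
        exact ⟨ha, Or.inr hc⟩
    have e2 : B ∩ insert e D = B ∩ D := by
      ext i
      simp only [Finset.mem_inter, Finset.mem_insert]
      constructor
      · rintro ⟨ha, rfl | hc⟩
        · exact absurd ha heB
        · exact ⟨ha, hc⟩
      · rintro ⟨ha, hc⟩
        exact ⟨ha, Or.inr hc⟩
    rw [e1] at s1
    rw [e2] at s2
    have hmem : ∀ i, i ∈ S ↔ i = e ∨ i ∈ A ∨ i ∈ B := by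
      intro i
      rw [← Finset.insert_erase he, Finset.mem_insert, ← hU, Finset.mem_union]
    have hmem' : ∀ i, i ∈ S ↔ i = e ∨ i ∈ C ∨ i ∈ D := by
      intro i
      rw [← Finset.insert_erase he, Finset.mem_insert, ← hU', Finset.mem_union]
    have hABd : ∀ i, i ∈ A → i ∈ B → False := fun i ha hb => Finset.disjoint_left.1 hAB ha hb
    have hCDd : ∀ i, i ∈ C → i ∈ D → False := fun i ha hb => Finset.disjoint_left.1 hCD ha hb
    have t1 := h.rank (A := A ∪ insert e C) (B := B ∩ D)
      ⟨e, by simp⟩ h4 (by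
        rw [Finset.disjoint_left]
        intro i hi hi'
        simp only [Finset.mem_union, Finset.mem_insert, Finset.mem_inter] at hi hi'
        rcases hi with hi | rfl | hi
        · exact hABd i hi hi'.1
        · exact heB hi'.1
        · exact hCDd i hi hi'.2) (by
        ext i
        simp only [Finset.mem_union, Finset.mem_insert, Finset.mem_inter]
        have m1 := hmem i
        have m2 := hmem' i
        tauto)
    have t2 := h.rank (A := B ∪ insert e D) (B := A ∩ C)
      ⟨e, by simp⟩ h3 (by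
        rw [Finset.disjoint_left]
        intro i hi hi'
        simp only [Finset.mem_union, Finset.mem_insert, Finset.mem_inter] at hi hi'
        rcases hi with hi | rfl | hi
        · exact hABd i hi'.1 hi
        · exact heA hi'.1
        · exact hCDd i hi'.2 hi) (by
        ext i
        simp only [Finset.mem_union, Finset.mem_insert, Finset.mem_inter]
        have m1 := hmem i
        have m2 := hmem' i
        tauto)
    omega
  have c1 := main A B C D heA heB heC heD hU hU' hAB hCD r1 r2
  have c2 := main A B D C heA heB heD heC hU (by rw [Finset.union_comm, hU']) hAB hCD.symm r1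
    (by rw [add_comm]; exact r2)
  have hmem : ∀ i, i ∈ A ∨ i ∈ B ↔ i ∈ C ∨ i ∈ D := by
    intro i
    rw [← Finset.mem_union, ← Finset.mem_union, hU, hU']
  obtain ⟨a, ha⟩ := hA
  obtain ⟨b, hb⟩ := hB
  obtain ⟨c, hc⟩ := hC
  obtain ⟨d, hd⟩ := hD
  have hn : ∀ {X Y : Finset I} {i : I}, X ∩ Y = ∅ → i ∈ X → i ∈ Y → False := by
    intro X Y i h5 h6 h7
    have : i ∈ X ∩ Y := Finset.mem_inter.2 ⟨h6, h7⟩
    rw [h5] at this
    exact Finset.notMem_empty i this
  rcases c1 with c1 | c1 <;> rcases c2 with c2 | c2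
  · rcases (hmem a).1 (Or.inl ha) with h5 | h5
    · exact hn c1 ha h5
    · exact hn c2 ha h5
  · rcases (hmem c).2 (Or.inl hc) with h5 | h5
    · exact hn c1 h5 hc
    · exact hn c2 h5 hc
  · rcases (hmem d).2 (Or.inr hd) with h5 | h5
    · exact hn c2 h5 hd
    · exact hn c1 h5 hd
  · rcases (hmem b).1 (Or.inr hb) with h5 | h5
    · exact hn c2 hb h5
    · exact hn c1 hb h5

/-! ### dimension two -/

theorem ker_line [FiniteDimensional ℝ T] (hk : finrank ℝ T = 2) {a : Dual ℝ T} (ha : a ≠ 0) :
    ∃ v : T, v ≠ 0 ∧ a v = 0 ∧ ∀ w, a w = 0 → ∃ c : ℝ, w = c • v := by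
  have h1 := Module.Dual.finrank_ker_add_one_of_ne_zero ha
  have h2 : finrank ℝ (LinearMap.ker a) = 1 := by omega
  obtain ⟨v, hv, h3⟩ := finrank_eq_one_iff'.1 h2
  refine ⟨v, fun h => hv (Subtype.ext h), v.2, fun w hw => ?_⟩
  obtain ⟨c, hc⟩ := h3 ⟨w, hw⟩
  exact ⟨c, (congrArg Subtype.val hc).symm⟩

theorem line_unique [FiniteDimensional ℝ T] (hk : finrank ℝ T = 2) {l g : Dual ℝ T} (hg : g ≠ 0)
    {p q : T} (hp : g p = 0) (hq : g q = 0) (lp : l p = 1) (lq : l q = 1) : p = q := by
  obtain ⟨v, -, -, h3⟩ := ker_line hk hg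
  obtain ⟨c, rfl⟩ := h3 p hp
  obtain ⟨d, rfl⟩ := h3 q hq
  rw [map_smul, smul_eq_mul] at lp lq
  have hv : l v ≠ 0 := fun h => by rw [h, mul_zero] at lp; exact zero_ne_one lp
  have : c = d := mul_right_cancel₀ hv (lp.trans lq.symm)
  rw [this]

theorem between [FiniteDimensional ℝ T] (hk : finrank ℝ T = 2) {n : I → Dual ℝ T} {S : Finset I}
    {l : Dual ℝ T} {p q z : T} (hp : IsVert n S p) (hq : IsVert n S q) (hz : IsVert n S z)
    (lp : l p = 1) (lq : l q = 1) (lz : l z = 1) (hpq : p ≠ q) {α β : ℝ} (hα : 0 < α) (hβ : 0 < β)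
    (h : z = α • p + β • q) :
    ∃ z, IsVert n S z ∧ l z = 1 ∧ ∀ g : Dual ℝ T, (∀ x, IsVert n S x → l x = 1 → 0 ≤ g x) →
      g z = 0 → g = 0 := by
  refine ⟨z, hz, lz, fun g hg hgz => ?_⟩
  by_contra hg0
  have h1 := hg p hp lp
  have h2 := hg q hq lq
  rw [h, map_add, map_smul, map_smul, smul_eq_mul, smul_eq_mul] at hgz
  have h3 : 0 ≤ α * g p := mul_nonneg hα.le h1
  have h4 : 0 ≤ β * g q := mul_nonneg hβ.le h2
  have h5 : α * g p = 0 := by linarith
  have h6 : β * g q = 0 := by linarith
  exact hpq (line_unique hk hg0 ((mul_eq_zero.1 h5).resolve_left hα.ne')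
    ((mul_eq_zero.1 h6).resolve_left hβ.ne') lp lq)

theorem claimI_two [FiniteDimensional ℝ T] [DecidableEq I] (n : I → Dual ℝ T) (S : Finset I)
    (hk : finrank ℝ T = 2) (hne : ∀ i ∈ S, n i ≠ 0)
    (hsp : ∀ f : T, (∀ i ∈ S, n i f = 0) → f = 0) (hconn : Conn n S) (l : Dual ℝ T)
    (hl : ∀ x, IsVert n S x → l x ≠ 0) :
    ∃ z, IsVert n S z ∧ l z = 1 ∧ ∀ g : Dual ℝ T, (∀ x, IsVert n S x → l x = 1 → 0 ≤ g x) →
      g z = 0 → g = 0 := by
  have hw : ∀ e ∈ S, ∃ w, IsVert n S w ∧ l w = 1 ∧ n e w = 0 := by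
    intro e he
    obtain ⟨v, hv0, hv, h3⟩ := ker_line hk (hne e he)
    have hvert : IsVert n S v := ⟨hv0, fun g hg => h3 g (hg e he hv)⟩
    have h4 := hl v hvert
    exact ⟨(l v)⁻¹ • v, hvert.smul (inv_ne_zero h4), by
      rw [map_smul, smul_eq_mul, inv_mul_cancel₀ h4], by rw [map_smul, hv, smul_zero]⟩
  have hSne : S.Nonempty := by
    by_contra h
    rw [Finset.not_nonempty_iff_eq_empty] at h
    have h1 : ∀ f : T, f = 0 := fun f => hsp f (by rw [h]; intro i hi; exact absurd hi (Finset.notMem_empty i))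
    have : Subsingleton T := ⟨fun a b => by rw [h1 a, h1 b]⟩
    rw [finrank_zero_of_subsingleton] at hk
    omega
  obtain ⟨a, ha⟩ := hSne
  obtain ⟨p, hp, lp, nap⟩ := hw a ha
  have hB : (S.filter (fun i => n i p ≠ 0)).Nonempty := by
    by_contra h
    rw [Finset.not_nonempty_iff_eq_empty, Finset.filter_eq_empty_iff] at h
    exact hp.1 (hsp p (fun i hi => by_contra (fun h' => h hi h')))
  obtain ⟨b, hb⟩ := hB
  rw [Finset.mem_filter] at hb
  obtain ⟨hb, nbp⟩ := hb
  obtain ⟨q, hq, lq, nbq⟩ := hw b hb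
  have hpq : p ≠ q := fun h => nbp (by rw [h]; exact nbq)
  have hc : ∃ c ∈ S, n c p ≠ 0 ∧ n c q ≠ 0 := by
    by_contra hcon
    push Not at hcon
    refine hconn (S.filter (fun i => n i p = 0)) (S.filter (fun i => n i p ≠ 0))
      ⟨a, Finset.mem_filter.2 ⟨ha, nap⟩⟩ ⟨b, Finset.mem_filter.2 ⟨hb, nbp⟩⟩ ?_ ?_ ?_
    · exact Finset.disjoint_filter_filter_not _ _ _
    · exact Finset.filter_union_filter_not_eq _ _
    · rw [Submodule.disjoint_def]
      intro y hy1 hy2
      by_contra hy0
      refine hpq (line_unique hk hy0 ?_ ?_ lp lq)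
      · have : span ℝ (n '' ((S.filter (fun i => n i p = 0) : Finset I) : Set I)) ≤
            LinearMap.ker (Dual.eval ℝ T p) := by
          rw [span_le]
          rintro _ ⟨i, hi, rfl⟩
          rw [Finset.mem_coe, Finset.mem_filter] at hi
          exact hi.2
        exact this hy1
      · have : span ℝ (n '' ((S.filter (fun i => n i p ≠ 0) : Finset I) : Set I)) ≤
            LinearMap.ker (Dual.eval ℝ T q) := by
          rw [span_le]
          rintro _ ⟨i, hi, rfl⟩
          rw [Finset.mem_coe, Finset.mem_filter] at hi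
          exact hcon i hi.1 hi.2
        exact this hy2
  obtain ⟨c, hc, ncp, ncq⟩ := hc
  obtain ⟨r, hr, lr, ncr⟩ := hw c hc
  have hpr : p ≠ r := fun h => ncp (by rw [h]; exact ncr)
  have hqr : q ≠ r := fun h => ncq (by rw [h]; exact ncr)
  have hl0 : l ≠ 0 := fun h => hl p hp (by rw [h]; rfl)
  obtain ⟨v, hv0, lv, h3⟩ := ker_line hk hl0
  obtain ⟨s, hs⟩ := h3 (q - p) (by rw [map_sub, lp, lq, sub_self])
  obtain ⟨t, ht⟩ := h3 (r - p) (by rw [map_sub, lp, lr, sub_self])
  have hs0 : s ≠ 0 := fun h => hpq (by rw [h, zero_smul, sub_eq_zero] at hs; exact hs.symm)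
  have ht0 : t ≠ 0 := fun h => hpr (by rw [h, zero_smul, sub_eq_zero] at ht; exact ht.symm)
  have hst : s ≠ t := fun h => hqr (by
    have h4 : q - p = r - p := by rw [hs, ht, h]
    exact sub_left_inj.1 h4)
  have hqe : q = p + s • v := by rw [← hs]; abel
  have hre : r = p + t • v := by rw [← ht]; abel
  -- the three cases
  have key : ∀ (s t : ℝ) (q r : T), IsVert n S q → IsVert n S r → l q = 1 → l r = 1 → p ≠ q →
      p ≠ r → q ≠ r → q = p + s • v → r = p + t • v → s ≠ 0 → t ≠ 0 → s < t →
      ∃ z, IsVert n S z ∧ l z = 1 ∧ ∀ g : Dual ℝ T, (∀ x, IsVert n S x → l x = 1 → 0 ≤ g x) →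
      g z = 0 → g = 0 := by
    intro s t q r hq hr lq lr hpq hpr hqr hqe hre hs0 ht0 hst
    rcases lt_or_gt_of_ne hs0 with hs | hs
    · rcases lt_or_gt_of_ne ht0 with ht | ht
      · -- s < t < 0 : r is between q and p
        refine between hk hq hp hr lq lp lr hpq.symm (α := t / s) (β := 1 - t / s)
          (div_pos_of_neg_of_neg ht hs) ?_ ?_
        · rw [sub_pos, div_lt_one_of_neg hs]
          exact hst
        · rw [hqe, hre]
          have : t = t / s * s := by field_simp
          rw [smul_add, smul_smul, ← this]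
          module
      · -- s < 0 < t : p is between q and r
        have h5 : 0 < t - s := by linarith
        refine between hk hq hr hp lq lr lp hqr (α := t / (t - s)) (β := -s / (t - s))
          (div_pos ht h5) (div_pos (by linarith) h5) ?_
        rw [hqe, hre, smul_add, smul_add, smul_smul, smul_smul]
        have e1 : t / (t - s) * s + -s / (t - s) * t = 0 := by ring
        have e2 : t / (t - s) + -s / (t - s) = 1 := by
          rw [← add_div, ← sub_eq_add_neg, div_self h5.ne']
        calc p = (1 : ℝ) • p + (0 : ℝ) • v := by module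
          _ = _ := by
            rw [← e1, ← e2]
            module
    · -- 0 < s < t : q is between p and r
      have ht : 0 < t := hs.trans hst
      refine between hk hp hr hq lp lr lq hpr (α := 1 - s / t) (β := s / t) ?_ (div_pos hs ht) ?_
      · rw [sub_pos, div_lt_one ht]
        exact hst
      · rw [hqe, hre]
        have : s = s / t * t := by field_simp
        rw [smul_add, smul_smul, ← this]
        module
  rcases lt_or_gt_of_ne hst with h | h
  · exact key s t q r hq hr lq lr hpq hpr hqr hqe hre hs0 ht0 h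
  · exact key t s r q hr hq lr lq hpr hpq hqr.symm hre hqe ht0 hs0 h

/-! ### the general case -/

/-- If `n i` is a multiple of `n e`, then `N - i` is connected. -/
theorem conn_erase_of_parallel [DecidableEq I] {n : I → Dual ℝ T} {S : Finset I} (h : Conn n S)
    {e i : I} (he : e ∈ S) (hi : i ∈ S) (hei : i ≠ e) {c : ℝ} (hc : n i = c • n e) :
    Conn n (S.erase i) := by
  have main : ∀ A B : Finset I, A.Nonempty → B.Nonempty → Disjoint A B → A ∪ B = S.erase i →
      e ∈ A → ¬ Disjoint (span ℝ (n '' (A : Set I))) (span ℝ (n '' (B : Set I))) := by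
    intro A B hA hB hAB hU heA hdis
    have hiB : i ∉ B := fun h => Finset.notMem_erase i S (hU ▸ Finset.mem_union_right _ h)
    refine h (insert i A) B ⟨i, Finset.mem_insert_self _ _⟩ hB
      (Finset.disjoint_insert_left.2 ⟨hiB, hAB⟩)
      (by rw [Finset.insert_union, hU, Finset.insert_erase hi]) ?_
    refine hdis.mono_left ?_
    rw [span_le]
    rintro _ ⟨j, hj, rfl⟩
    rw [Finset.mem_coe, Finset.mem_insert] at hj
    rcases hj with rfl | hj
    · rw [hc]
      exact Submodule.smul_mem _ _ (subset_span ⟨e, heA, rfl⟩)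
    · exact subset_span ⟨j, hj, rfl⟩
  intro A B hA hB hAB hU
  have he' : e ∈ A ∪ B := by rw [hU]; exact Finset.mem_erase.2 ⟨hei.symm, he⟩
  rcases Finset.mem_union.1 he' with h1 | h1
  · exact main A B hA hB hAB hU h1
  · exact fun hd => main B A hB hA hAB.symm (by rw [Finset.union_comm, hU]) h1 hd.symm

universe u

theorem claimI_aux {I : Type*} [DecidableEq I] (m : ℕ) : ∀ (T : Type u) [AddCommGroup T]
    [Module ℝ T] [FiniteDimensional ℝ T] (n : I → Dual ℝ T) (S : Finset I), S.card = m →
    2 ≤ finrank ℝ T → (∀ i ∈ S, n i ≠ 0) → (∀ f : T, (∀ i ∈ S, n i f = 0) → f = 0) →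
    Conn n S → ∀ l : Dual ℝ T, (∀ x, IsVert n S x → l x ≠ 0) →
    ∃ z, IsVert n S z ∧ l z = 1 ∧ ∀ g : Dual ℝ T, (∀ x, IsVert n S x → l x = 1 → 0 ≤ g x) →
      g z = 0 → g = 0 := by
  induction m using Nat.strong_induction_on with
  | _ m ih =>
    intro T _ _ _ n S hm hk hne hsp hconn l hl
    rcases hk.eq_or_lt with hk2 | hk3
    · exact claimI_two n S hk2.symm hne hsp hconn l hl
    have hker : ∀ e ∈ S, finrank ℝ (LinearMap.ker (n e)) + 1 = finrank ℝ T :=
      fun e he => Module.Dual.finrank_ker_add_one_of_ne_zero (hne e he)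
    have hers : ∀ e ∈ S, (S.erase e).Nonempty := by
      intro e he
      by_contra h
      rw [Finset.not_nonempty_iff_eq_empty] at h
      have h1 : LinearMap.ker (n e) = ⊥ := by
        rw [eq_bot_iff]
        intro f hf
        refine hsp f (fun i hi => ?_)
        by_cases hie : i = e
        · rw [hie]; exact hf
        · exact absurd (Finset.mem_erase.2 ⟨hie, hi⟩) (by rw [h]; exact Finset.notMem_empty i)
      have h2 := hker e he
      rw [h1, finrank_bot] at h2
      omega
    by_cases hA : ∃ e ∈ S, Conn n (S.erase e)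
    · obtain ⟨e, he, hce⟩ := hA
      obtain ⟨z, hz, lz, hg⟩ := ih (S.erase e).card (by
          rw [← hm]; exact Finset.card_erase_lt_of_mem he) T n (S.erase e) rfl hk
        (fun i hi => hne i (Finset.mem_of_mem_erase hi)) (by
          intro f hf
          refine hsp f (fun i hi => ?_)
          by_cases hie : i = e
          · rw [hie]
            have h1 := hconn.mem_span he (hers e he)
            have h2 : span ℝ (n '' ((S.erase e : Finset I) : Set I)) ≤
                LinearMap.ker (Dual.eval ℝ T f) := by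
              rw [span_le]
              rintro _ ⟨j, hj, rfl⟩
              exact hf j hj
            exact h2 h1
          · exact hf i (Finset.mem_erase.2 ⟨hie, hi⟩)) hce l
        (fun x hx => hl x (hx.mono (Finset.erase_subset _ _)))
      exact ⟨z, hz.mono (Finset.erase_subset _ _), lz,
        fun g h1 h2 => hg g (fun x hx lx => h1 x (hx.mono (Finset.erase_subset _ _)) lx) h2⟩
    · push Not at hA
      have hsimple : ∀ e ∈ S, ∀ i ∈ S.erase e, res n e i ≠ 0 := by
        intro e he i hi h0
        obtain ⟨c, hc⟩ := eq_smul_of_ker (n e) (n i) (fun x hx =>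
          LinearMap.congr_fun h0 (⟨x, hx⟩ : LinearMap.ker (n e)))
        exact hA i (Finset.mem_of_mem_erase hi) (conn_erase_of_parallel hconn he
          (Finset.mem_of_mem_erase hi) (Finset.ne_of_mem_erase hi) hc)
      have hcon : ∀ e ∈ S, Conn (res n e) (S.erase e) :=
        fun e he => (tutte hconn he).resolve_left (hA e he)
      have hw : ∀ e ∈ S, ∃ w : LinearMap.ker (n e), IsVert (res n e) (S.erase e) w ∧
          l (w : T) = 1 ∧ ∀ g : Dual ℝ T, (∀ x, IsVert n S x → l x = 1 → n e x = 0 → 0 ≤ g x) →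
          g (w : T) = 0 → ∃ c : ℝ, g = c • n e := by
        intro e he
        obtain ⟨w, hw, lw, hg⟩ := ih (S.erase e).card (by
            rw [← hm]; exact Finset.card_erase_lt_of_mem he) (LinearMap.ker (n e)) (res n e)
          (S.erase e) rfl (by have := hker e he; omega) (hsimple e he) (by
            intro f hf
            refine Subtype.ext (hsp (f : T) (fun i hi => ?_))
            by_cases hie : i = e
            · rw [hie]; exact f.2
            · exact hf i (Finset.mem_erase.2 ⟨hie, hi⟩)) (hcon e he)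
          (l.domRestrict (LinearMap.ker (n e))) (fun x hx => hl x (isVert_of_res he hx))
        refine ⟨w, hw, lw, fun g h1 h2 => ?_⟩
        have h3 := hg (g.domRestrict (LinearMap.ker (n e)))
          (fun x hx lx => h1 x (isVert_of_res he hx) lx x.2) h2
        exact eq_smul_of_ker (n e) g (fun x hx =>
          LinearMap.congr_fun h3 (⟨x, hx⟩ : LinearMap.ker (n e)))
      by_contra hno
      push Not at hno
      -- every `n e` has a constant weak sign on the vertices
      have hsign : ∀ e ∈ S, ∃ c : ℝ, c ≠ 0 ∧ ∀ x, IsVert n S x → l x = 1 → 0 ≤ c * n e x := by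
        intro e he
        obtain ⟨w, hw, lw, hg⟩ := hw e he
        obtain ⟨g, h1, h2, h3⟩ := hno w (isVert_of_res he hw) lw
        obtain ⟨c, hc⟩ := hg g (fun x hx lx _ => h1 x hx lx) h2
        refine ⟨c, fun h => h3 (by rw [hc, h, zero_smul]), fun x hx lx => ?_⟩
        have := h1 x hx lx
        rwa [hc] at this
      have hSne : S.Nonempty := by
        by_contra h
        rw [Finset.not_nonempty_iff_eq_empty] at h
        have h1 : ∀ f : T, f = 0 := fun f => hsp f (by
          rw [h]; intro i hi; exact absurd hi (Finset.notMem_empty i))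
        have : Subsingleton T := ⟨fun a b => by rw [h1 a, h1 b]⟩
        rw [finrank_zero_of_subsingleton] at hk
        omega
      obtain ⟨e, he⟩ := hSne
      obtain ⟨w, hw, lw, hg⟩ := hw e he
      -- some other `n f` kills `w`
      have hf : ∃ f ∈ S.erase e, n f (w : T) = 0 := by
        by_contra hcon
        push Not at hcon
        have h1 : ∀ g : LinearMap.ker (n e), ∃ c : ℝ, g = c • w :=
          fun g => hw.2 g (fun i hi h => absurd h (hcon i hi))
        have h2 : finrank ℝ (LinearMap.ker (n e)) ≤ 1 :=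
          finrank_le_one w (fun g => by
            obtain ⟨c, hc⟩ := h1 g
            exact ⟨c, hc.symm⟩)
        have h3 := hker e he
        omega
      obtain ⟨f, hf, nfw⟩ := hf
      obtain ⟨c, hc, hs⟩ := hsign f (Finset.mem_of_mem_erase hf)
      obtain ⟨d, hd⟩ := hg (c • n f) (fun x hx lx _ => hs x hx lx) (by
        rw [LinearMap.smul_apply, nfw, smul_zero])
      refine hsimple e he f hf (LinearMap.ext (fun x => ?_))
      have h1 := LinearMap.congr_fun hd (x : T)
      rw [LinearMap.smul_apply, LinearMap.smul_apply, show n e (x : T) = 0 from x.2, smul_zero,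
        smul_eq_mul, mul_eq_zero] at h1
      exact h1.resolve_left hc

/-- CLAIM I: a connected spanning family of functionals without zero functional, in dimension at least two,
has an interior vertex (in any chart `l`). -/
theorem claimI {T : Type*} [AddCommGroup T] [Module ℝ T] [FiniteDimensional ℝ T] {I : Type*}
    [DecidableEq I] (n : I → Dual ℝ T) (S : Finset I) (hk : 2 ≤ finrank ℝ T)
    (hne : ∀ i ∈ S, n i ≠ 0) (hsp : ∀ f : T, (∀ i ∈ S, n i f = 0) → f = 0) (hconn : Conn n S)
    (l : Dual ℝ T) (hl : ∀ x, IsVert n S x → l x ≠ 0) :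
    ∃ z, IsVert n S z ∧ l z = 1 ∧ ∀ g : Dual ℝ T, (∀ x, IsVert n S x → l x = 1 → 0 ≤ g x) →
      g z = 0 → g = 0 :=
  claimI_aux S.card T n S rfl hk hne hsp hconn l hl

end WW
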