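import Mathlib

/-!
# MP_a50277_co (Wiseman-Wilson): a generic functional, counting
-/

set_option autoImplicit false

namespace WW

/-- A functional which does not vanish on any of the finitely many lines cut out by subfamilies of `n`. -/
theorem exists_generic {T : Type*} [AddCommGroup T] [Module ℝ T] [FiniteDimensional ℝ T]
    {I : Type*} [Fintype I] (n : I → Module.Dual ℝ T) : ∃ g : Module.Dual ℝ T, ∀ x : T, x ≠ 0 →
      (∃ S : Set I, (∀ i ∈ S, n i x = 0) ∧ ∀ y : T, (∀ i ∈ S, n i y = 0) → ∃ c : ℝ, y = c • x) →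
      g x ≠ 0 := by
  classical
  obtain ⟨g, hg⟩ := Module.exists_dual_forall_apply_ne_zero (K := ℝ)
    (fun S : {S : Set I // ∃ x : T, x ≠ 0 ∧ (∀ i ∈ S, n i x = 0) ∧
      ∀ y : T, (∀ i ∈ S, n i y = 0) → ∃ c : ℝ, y = c • x} => S.2.choose)
    (fun S => S.2.choose_spec.1)
  refine ⟨g, fun x hx hS => ?_⟩
  obtain ⟨S, h1, h2⟩ := hS
  have hS' : ∃ x : T, x ≠ 0 ∧ (∀ i ∈ S, n i x = 0) ∧
      ∀ y : T, (∀ i ∈ S, n i y = 0) → ∃ c : ℝ, y = c • x := ⟨x, hx, h1, h2⟩
  have h3 := hg ⟨S, hS'⟩
  obtain ⟨c, hc⟩ := h2 hS'.choose hS'.choose_spec.2.1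
  intro h4
  apply h3
  show g hS'.choose = 0
  rw [hc, map_smul, h4, smul_zero]

/-- A vertex killed by an independent family is killed by exactly `finrank T - 1` functionals. -/
theorem ncard_of_indep {T : Type*} [AddCommGroup T] [Module ℝ T] [FiniteDimensional ℝ T]
    {I : Type*} [Fintype I] (n : I → Module.Dual ℝ T) (f : T) (hf : f ≠ 0)
    (hi : LinearIndepOn ℝ n {i | n i f = 0})
    (hv : ∀ g : T, (∀ i, n i f = 0 → n i g = 0) → ∃ c : ℝ, g = c • f) :
    Set.ncard {i | n i f = 0} = Module.finrank ℝ T - 1 := by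
  classical
  have h1 : Module.finrank ℝ (Submodule.span ℝ (Set.range fun x : {i | n i f = 0} => n x)) =
      Set.ncard {i | n i f = 0} := by
    rw [finrank_span_eq_card hi, ← Nat.card_eq_fintype_card]
    rfl
  set W := Submodule.span ℝ (Set.range fun x : {i | n i f = 0} => n x) with hW
  have h2 : W.dualCoannihilator = Submodule.span ℝ {f} := by
    ext g
    rw [Submodule.mem_dualCoannihilator, Submodule.mem_span_singleton]
    constructor
    · intro h
      obtain ⟨c, hc⟩ := hv g (fun i hi => h (n i) (Submodule.subset_span ⟨⟨i, hi⟩, rfl⟩))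
      exact ⟨c, hc.symm⟩
    · rintro ⟨c, rfl⟩ φ hφ
      rw [map_smul]
      have h3 : φ f = 0 := by
        refine Submodule.span_induction (p := fun φ _ => φ f = 0) ?_ ?_ ?_ ?_ hφ
        · rintro _ ⟨i, rfl⟩
          exact i.2
        · rfl
        · intro a b _ _ ha hb
          rw [LinearMap.add_apply, ha, hb, add_zero]
        · intro a b _ hb
          rw [LinearMap.smul_apply, hb, smul_zero]
      rw [h3, smul_zero]
  have h3 := Subspace.finrank_add_finrank_dualCoannihilator_eq W
  rw [h2, finrank_span_singleton hf, h1] at h3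
  omega

end WW
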