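import Pool.Agent.Lib_MP_a50277.Iface

/-!
# MP_a50277_co (Wiseman-Wilson): from the interfaces to the frozen statement
-/

set_option autoImplicit false

namespace WW

open Module MvPolynomial

/-! ### the dimension of the space of forms -/

theorem finrank_hom (d : ℕ) :
    finrank ℝ (homogeneousSubmodule (Fin 3) ℝ d) = (d + 1) * (d + 2) / 2 := by
  classical
  set S : Finset (Fin 3 →₀ ℕ) := (Finset.univ : Finset (Fin 3)).finsuppAntidiag d with hS
  have hmem : ∀ s : Fin 3 →₀ ℕ, s ∈ S ↔ s.degree = d := by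
    intro s
    rw [hS, Finset.mem_finsuppAntidiag']
    constructor
    · rintro ⟨h, -⟩
      rw [Finsupp.degree_eq_sum, ← h, Finsupp.sum_fintype _ _ (fun _ => rfl)]
    · intro h
      refine ⟨?_, Finset.subset_univ _⟩
      rw [Finsupp.sum_fintype _ _ (fun _ => rfl), ← h, Finsupp.degree_eq_sum]
  have hspan : homogeneousSubmodule (Fin 3) ℝ d =
      Submodule.span ℝ (Set.range (fun s : S => (monomial s.1 (1 : ℝ) : MvPolynomial (Fin 3) ℝ))) := by
    apply le_antisymm
    · intro f hf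
      rw [f.as_sum]
      refine Submodule.sum_mem _ (fun s hs => ?_)
      have hd : s.degree = d := by
        have h1 := hf (MvPolynomial.mem_support_iff.1 hs)
        rw [Finsupp.degree_eq_weight_one]
        exact h1
      have e : (monomial s (coeff s f) : MvPolynomial (Fin 3) ℝ) = coeff s f • monomial s 1 := by
        rw [smul_monomial, smul_eq_mul, mul_one]
      rw [e]
      exact Submodule.smul_mem _ _ (Submodule.subset_span ⟨⟨s, (hmem s).2 hd⟩, rfl⟩)
    · rw [Submodule.span_le]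
      rintro _ ⟨s, rfl⟩
      exact isHomogeneous_monomial _ ((hmem s.1).1 s.2)
  have hli : LinearIndependent ℝ
      (fun s : S => (monomial s.1 (1 : ℝ) : MvPolynomial (Fin 3) ℝ)) := by
    have h := (basisMonomials (Fin 3) ℝ).linearIndependent
    rw [coe_basisMonomials] at h
    exact h.comp (fun s : S => s.1) Subtype.val_injective
  rw [hspan, finrank_span_eq_card hli, Fintype.card_coe, hS,
    Finset.card_finsuppAntidiag_nat_eq_choose]
  have e1 : (Finset.univ : Finset (Fin 3)).card + d - 1 = d + 2 := by simp; omega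
  rw [e1, show (d + 2).choose d = (d + 2).choose 2 from by
    rw [← Nat.choose_symm_add (a := d) (b := 2)], Nat.choose_two_right]
  congr 1
  rw [mul_comm]
  rfl

instance finite_hom (d : ℕ) : FiniteDimensional ℝ (homogeneousSubmodule (Fin 3) ℝ d) := by
  apply FiniteDimensional.of_finrank_pos
  rw [finrank_hom]
  have h1 : 2 ≤ (d + 1) * (d + 2) := by nlinarith
  omega

/-! ### affine chart -/

theorem exists_chart (P : Finset (Projectivization ℝ (Fin 3 → ℝ))) :
    ∃ α β γ : ℝ, α ≠ 0 ∧ ∀ p ∈ P, α * p.rep 0 + β * p.rep 1 + γ * p.rep 2 ≠ 0 := by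
  classical
  obtain ⟨f, hf⟩ := Module.exists_dual_forall_apply_ne_zero (K := ℝ)
    (fun i : Option P => match i with
      | none => (Pi.single 0 1 : Fin 3 → ℝ)
      | some p => p.1.rep) (by
      rintro (_ | p)
      · intro h
        have h1 := congrFun h 0
        simp at h1
      · exact p.1.rep_nonzero)
  have key : ∀ x : Fin 3 → ℝ, f x = f (Pi.single 0 1) * x 0 + f (Pi.single 1 1) * x 1 +
      f (Pi.single 2 1) * x 2 := by
    intro x
    have e : x = x 0 • (Pi.single 0 1 : Fin 3 → ℝ) + x 1 • (Pi.single 1 1 : Fin 3 → ℝ) +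
        x 2 • (Pi.single 2 1 : Fin 3 → ℝ) := by
      funext i
      fin_cases i <;> simp
    conv_lhs => rw [e]
    rw [map_add, map_add, map_smul, map_smul, map_smul]
    simp only [smul_eq_mul]
    ring
  refine ⟨f (Pi.single 0 1), f (Pi.single 1 1), f (Pi.single 2 1), hf none, fun p hp => ?_⟩
  rw [← key]
  exact hf (some ⟨p, hp⟩)

/-- powers of an affine function are combinations of monomials -/
theorem rel_lin {I : Type} [Fintype I] {u v c : I → ℝ} {d : ℕ}
    (h : ∀ k l, k + l ≤ d → ∑ i, c i * (u i ^ k * v i ^ l) = 0) (α β γ : ℝ) :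
    ∀ m k l, m + k + l ≤ d → ∑ i, c i * ((α + β * u i + γ * v i) ^ m * u i ^ k * v i ^ l) = 0 := by
  intro m
  induction m with
  | zero =>
    intro k l hkl
    simpa using h k l (by omega)
  | succ m ih =>
    intro k l hkl
    have e : ∀ i, c i * ((α + β * u i + γ * v i) ^ (m + 1) * u i ^ k * v i ^ l) =
        α * (c i * ((α + β * u i + γ * v i) ^ m * u i ^ k * v i ^ l)) +
        β * (c i * ((α + β * u i + γ * v i) ^ m * u i ^ (k + 1) * v i ^ l)) +
        γ * (c i * ((α + β * u i + γ * v i) ^ m * u i ^ k * v i ^ (l + 1))) := by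
      intro i
      ring
    rw [Finset.sum_congr rfl (fun i _ => e i), Finset.sum_add_distrib, Finset.sum_add_distrib,
      ← Finset.mul_sum, ← Finset.mul_sum, ← Finset.mul_sum, ih k l (by omega),
      ih (k + 1) l (by omega), ih k (l + 1) (by omega)]
    ring

/-! ### the glue -/

/-- evaluation of a form at a vector -/
noncomputable def ev (d : ℕ) (x : Fin 3 → ℝ) : Dual ℝ (homogeneousSubmodule (Fin 3) ℝ d) :=
  (aeval x : MvPolynomial (Fin 3) ℝ →ₐ[ℝ] ℝ).toLinearMap.comp
    (homogeneousSubmodule (Fin 3) ℝ d).subtype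

theorem ev_apply (d : ℕ) (x : Fin 3 → ℝ) (f : homogeneousSubmodule (Fin 3) ℝ d) :
    ev d x f = eval x f.1 := by
  exact RingHom.congr_fun (coe_aeval_eq_eval x) f.1

theorem ev_ne_zero {d : ℕ} {x : Fin 3 → ℝ} (hx : x ≠ 0) : ev d x ≠ 0 := by
  intro h
  obtain ⟨i, hi⟩ := Function.ne_iff.1 hx
  have h1 := LinearMap.congr_fun h ⟨(X i : MvPolynomial (Fin 3) ℝ) ^ d, by
    simpa using (isHomogeneous_X ℝ i).pow d⟩
  rw [ev_apply] at h1
  simp only [map_pow, eval_X, LinearMap.zero_apply] at h1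
  exact pow_ne_zero d hi h1

theorem deg_of_mem {d : ℕ} (F : homogeneousSubmodule (Fin 3) ℝ d) {s : Fin 3 →₀ ℕ}
    (hs : s ∈ F.1.support) : s 0 + s 1 + s 2 = d := by
  have h1 : s.degree = d := by
    rw [Finsupp.degree_eq_weight_one]
    exact F.2 (MvPolynomial.mem_support_iff.1 hs)
  rw [Finsupp.degree_eq_sum, Fin.sum_univ_three] at h1
  exact h1

/-- a linear relation for the monomials gives a linear relation for the forms -/
theorem rel_forms {I : Type} [Fintype I] {d : ℕ} {α β γ : ℝ} (hα : α ≠ 0) (x : I → Fin 3 → ℝ)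
    (hx : ∀ i, α * x i 0 + β * x i 1 + γ * x i 2 ≠ 0) (c : I → ℝ)
    (h : ∀ k l, k + l ≤ d → ∑ i, c i *
      ((x i 1 / (α * x i 0 + β * x i 1 + γ * x i 2)) ^ k *
        (x i 2 / (α * x i 0 + β * x i 1 + γ * x i 2)) ^ l) = 0) :
    ∑ i, (c i / (α * x i 0 + β * x i 1 + γ * x i 2) ^ d) • ev d (x i) = 0 := by
  refine LinearMap.ext fun F => ?_
  rw [LinearMap.sum_apply, LinearMap.zero_apply]
  have e1 : ∀ i, ((c i / (α * x i 0 + β * x i 1 + γ * x i 2) ^ d) • ev d (x i)) F =
      ∑ s ∈ F.1.support, coeff s F.1 * (c i *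
        ((1 / α + (-β / α) * (x i 1 / (α * x i 0 + β * x i 1 + γ * x i 2)) +
          (-γ / α) * (x i 2 / (α * x i 0 + β * x i 1 + γ * x i 2))) ^ (s 0) *
        (x i 1 / (α * x i 0 + β * x i 1 + γ * x i 2)) ^ (s 1) *
          (x i 2 / (α * x i 0 + β * x i 1 + γ * x i 2)) ^ (s 2))) := by
    intro i
    rw [LinearMap.smul_apply, smul_eq_mul, ev_apply, eval_eq', Finset.mul_sum]
    refine Finset.sum_congr rfl fun s hs => ?_
    have hd := deg_of_mem F hs
    have hl := hx i
    set L := α * x i 0 + β * x i 1 + γ * x i 2 with hL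
    have e2 : 1 / α + (-β / α) * (x i 1 / L) + (-γ / α) * (x i 2 / L) = x i 0 / L := by
      field_simp
      rw [hL]
      ring
    rw [e2, Fin.prod_univ_three, div_pow, div_pow, div_pow]
    have e3 : L ^ d = L ^ (s 0) * L ^ (s 1) * L ^ (s 2) := by
      rw [← pow_add, ← pow_add, hd]
    rw [e3]
    field_simp
  rw [Finset.sum_congr rfl (fun i _ => e1 i), Finset.sum_comm]
  refine Finset.sum_eq_zero fun s hs => ?_
  rw [← Finset.mul_sum]
  have hd := deg_of_mem F hs
  rw [rel_lin h (1 / α) (-β / α) (-γ / α) (s 0) (s 1) (s 2) hd.le, mul_zero]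

/-- the monomials are forms divided by a power of the linear form -/
theorem forms_rel {I : Type} [Fintype I] {d : ℕ} {α β γ : ℝ} (x : I → Fin 3 → ℝ)
    (hx : ∀ i, α * x i 0 + β * x i 1 + γ * x i 2 ≠ 0) (c : I → ℝ)
    (k l : ℕ) (hkl : k + l ≤ d) : ∃ F : homogeneousSubmodule (Fin 3) ℝ d,
      ∑ i, (c i * (α * x i 0 + β * x i 1 + γ * x i 2) ^ d) *
        ((x i 1 / (α * x i 0 + β * x i 1 + γ * x i 2)) ^ k *
        (x i 2 / (α * x i 0 + β * x i 1 + γ * x i 2)) ^ l) = (∑ i, c i • ev d (x i)) F := by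
  have hF : ((C α * X 0 + C β * X 1 + C γ * X 2) ^ (d - k - l) * X 1 ^ k * X 2 ^ l :
      MvPolynomial (Fin 3) ℝ) ∈ homogeneousSubmodule (Fin 3) ℝ d := by
    have h0 : (C α * X 0 + C β * X 1 + C γ * X 2 : MvPolynomial (Fin 3) ℝ).IsHomogeneous 1 :=
      ((isHomogeneous_C_mul_X α 0).add (isHomogeneous_C_mul_X β 1)).add
        (isHomogeneous_C_mul_X γ 2)
    have h1 := ((h0.pow (d - k - l)).mul ((isHomogeneous_X ℝ (1 : Fin 3)).pow k)).mul
      ((isHomogeneous_X ℝ (2 : Fin 3)).pow l)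
    have e : 1 * (d - k - l) + 1 * k + 1 * l = d := by omega
    rw [e] at h1
    exact h1
  refine ⟨⟨_, hF⟩, ?_⟩
  rw [LinearMap.sum_apply]
  refine Finset.sum_congr rfl fun i _ => ?_
  rw [LinearMap.smul_apply, smul_eq_mul, ev_apply]
  simp only [map_mul, map_pow, map_add, eval_C, eval_X]
  have hl := hx i
  set L := α * x i 0 + β * x i 1 + γ * x i 2 with hL
  have e3 : L ^ d = L ^ (d - k - l) * L ^ k * L ^ l := by
    rw [← pow_add, ← pow_add]
    congr 1
    omega
  rw [div_pow, div_pow, e3]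
  field_simp

theorem chart_inj {α β γ : ℝ} {p q : Projectivization ℝ (Fin 3 → ℝ)}
    (hα : α ≠ 0) (hp : α * p.rep 0 + β * p.rep 1 + γ * p.rep 2 ≠ 0)
    (hq : α * q.rep 0 + β * q.rep 1 + γ * q.rep 2 ≠ 0)
    (h1 : p.rep 1 / (α * p.rep 0 + β * p.rep 1 + γ * p.rep 2) =
      q.rep 1 / (α * q.rep 0 + β * q.rep 1 + γ * q.rep 2))
    (h2 : p.rep 2 / (α * p.rep 0 + β * p.rep 1 + γ * p.rep 2) =
      q.rep 2 / (α * q.rep 0 + β * q.rep 1 + γ * q.rep 2)) : p = q := by
  rw [← p.mk_rep, ← q.mk_rep, Projectivization.mk_eq_mk_iff']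
  set Lp := α * p.rep 0 + β * p.rep 1 + γ * p.rep 2 with hLp
  set Lq := α * q.rep 0 + β * q.rep 1 + γ * q.rep 2 with hLq
  refine ⟨Lp / Lq, ?_⟩
  rw [div_eq_div_iff hp hq] at h1 h2
  funext i
  have e0 : α * (Lp / Lq * q.rep 0 - p.rep 0) = 0 := by
    have e1 : α * p.rep 0 = Lp - β * p.rep 1 - γ * p.rep 2 := by rw [hLp]; ring
    have e2 : α * q.rep 0 = Lq - β * q.rep 1 - γ * q.rep 2 := by rw [hLq]; ring
    have e3 : α * (Lp / Lq * q.rep 0 - p.rep 0) = Lp / Lq * (α * q.rep 0) - α * p.rep 0 := by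
      ring
    rw [e3, e1, e2]
    field_simp
    linear_combination β * h1 + γ * h2
  have e0' : Lp / Lq * q.rep 0 - p.rep 0 = 0 := (mul_eq_zero.1 e0).resolve_left hα
  fin_cases i
  · show Lp / Lq * q.rep 0 = p.rep 0
    linarith
  · show Lp / Lq * q.rep 1 = p.rep 1
    field_simp
    linarith
  · show Lp / Lq * q.rep 2 = p.rep 2
    field_simp
    linarith

/-- `ClaimB` and `AffineC` give the Wiseman-Wilson conjecture (statement of `S10569`). -/
theorem glue (hB : ClaimB) (hC : AffineC) :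
    ∀ d : ℕ, 0 < d → ∀ P : Finset (Projectivization ℝ (Fin 3 → ℝ)),
      (∃ f : MvPolynomial (Fin 3) ℝ, f.IsHomogeneous d ∧ f ≠ 0 ∧
          ∀ p ∈ P, MvPolynomial.eval p.rep f = 0) ∨
      (∃ f : MvPolynomial (Fin 3) ℝ, f.IsHomogeneous d ∧ f ≠ 0 ∧
          (P.filter (fun p => MvPolynomial.eval p.rep f = 0)).card = (d + 1) * (d + 2) / 2 - 1 ∧
          ∀ g : MvPolynomial (Fin 3) ℝ, g.IsHomogeneous d →
            (∀ p ∈ P, MvPolynomial.eval p.rep f = 0 → MvPolynomial.eval p.rep g = 0) →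
            ∃ c : ℝ, g = c • f) := by
  classical
  intro d hd P
  by_cases hP : ∃ f : MvPolynomial (Fin 3) ℝ, f.IsHomogeneous d ∧ f ≠ 0 ∧
      ∀ p ∈ P, MvPolynomial.eval p.rep f = 0
  · exact Or.inl hP
  refine Or.inr ?_
  obtain ⟨α, β, γ, hα, hL⟩ := exists_chart P
  have hL' : ∀ p : P, α * p.1.rep 0 + β * p.1.rep 1 + γ * p.1.rep 2 ≠ 0 := fun p => hL p.1 p.2
  have hfr : 2 ≤ finrank ℝ (homogeneousSubmodule (Fin 3) ℝ d) := by
    rw [finrank_hom]
    have h1 : 6 ≤ (d + 1) * (d + 2) := by nlinarith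
    omega
  obtain ⟨f, hf0, hcard, huniq⟩ := hB (homogeneousSubmodule (Fin 3) ℝ d) P
    (fun p => ev d p.1.rep) hfr (fun p => ev_ne_zero p.1.rep_nonzero) (by
      intro f hf
      by_contra hne
      refine hP ⟨f.1, f.2, fun h => hne (Subtype.ext h), fun p hp => ?_⟩
      have h1 := hf ⟨p, hp⟩
      rwa [ev_apply] at h1) (by
      intro a b ha hb hab hra hrb
      have trans : ∀ c : P → ℝ, ∑ p : P, c p • ev d p.1.rep = 0 → ∀ k l, k + l ≤ d →
          ∑ p : P, (c p * (α * p.1.rep 0 + β * p.1.rep 1 + γ * p.1.rep 2) ^ d) *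
          ((p.1.rep 1 / (α * p.1.rep 0 + β * p.1.rep 1 + γ * p.1.rep 2)) ^ k *
          (p.1.rep 2 / (α * p.1.rep 0 + β * p.1.rep 1 + γ * p.1.rep 2)) ^ l) = 0 := by
        intro c hc k l hkl
        obtain ⟨F, hF⟩ := forms_rel (fun p : P => p.1.rep) hL' c k l hkl
        rw [hF, hc]
        rfl
      have nz : ∀ c : P → ℝ, c ≠ 0 →
          (fun p : P => c p * (α * p.1.rep 0 + β * p.1.rep 1 + γ * p.1.rep 2) ^ d) ≠ 0 := by
        intro c hc h
        apply hc
        funext p
        have h1 := congrFun h p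
        exact (mul_eq_zero.1 h1).resolve_right (pow_ne_zero _ (hL' p))
      obtain ⟨a', b', ha', hb', hab', k, l, hkl, hne⟩ := hC P
        (fun p => p.1.rep 1 / (α * p.1.rep 0 + β * p.1.rep 1 + γ * p.1.rep 2))
        (fun p => p.1.rep 2 / (α * p.1.rep 0 + β * p.1.rep 1 + γ * p.1.rep 2))
        (fun p q h1 h2 => Subtype.ext (chart_inj hα (hL' p) (hL' q) h1 h2)) d
        _ _ (nz a ha) (nz b hb) (fun p => by
          rcases hab p with h | h
          · left
            show a p * _ = 0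
            rw [h, zero_mul]
          · right
            show b p * _ = 0
            rw [h, zero_mul]) (trans a hra) (trans b hrb)
      refine ⟨fun p => a' p / (α * p.1.rep 0 + β * p.1.rep 1 + γ * p.1.rep 2) ^ d,
        fun p => b' p / (α * p.1.rep 0 + β * p.1.rep 1 + γ * p.1.rep 2) ^ d, ?_, ?_, ?_, ?_⟩
      · intro p hp
        show a' p / _ = 0
        rw [ha' p (by show a p * _ = 0; rw [hp, zero_mul]), zero_div]
      · intro p hp
        show b' p / _ = 0
        rw [hb' p (by show b p * _ = 0; rw [hp, zero_mul]), zero_div]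
      · have h1 := rel_forms (d := d) hα (fun p : P => p.1.rep) hL' (fun p => a' p - b' p) (by
          intro k l hkl
          have h2 := hab' k l hkl
          rw [← sub_eq_zero, ← Finset.sum_sub_distrib] at h2
          rw [← h2]
          refine Finset.sum_congr rfl fun p _ => ?_
          ring)
        rw [← sub_eq_zero, ← Finset.sum_sub_distrib, ← h1]
        refine Finset.sum_congr rfl fun p _ => ?_
        refine LinearMap.ext fun F => ?_
        rw [LinearMap.sub_apply, LinearMap.smul_apply, LinearMap.smul_apply, LinearMap.smul_apply,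
          smul_eq_mul, smul_eq_mul, smul_eq_mul]
        ring
      · intro h1
        apply hne
        obtain ⟨F, hF⟩ := forms_rel (fun p : P => p.1.rep) hL'
          (fun p => a' p / (α * p.1.rep 0 + β * p.1.rep 1 + γ * p.1.rep 2) ^ d) k l hkl
        rw [h1] at hF
        rw [LinearMap.zero_apply] at hF
        rw [← hF]
        refine Finset.sum_congr rfl fun p _ => ?_
        rw [div_mul_cancel₀ _ (pow_ne_zero _ (hL' p))])
  refine ⟨f.1, f.2, fun h => hf0 (Subtype.ext h), ?_, ?_⟩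
  · rw [← finrank_hom, ← hcard, ← Set.ncard_coe_finset]
    symm
    refine Set.ncard_congr (fun p _ => p.1) ?_ ?_ ?_
    · intro p hp
      have hp' : ev d p.1.rep f = 0 := hp
      rw [ev_apply] at hp'
      simp only [Finset.coe_filter, Set.mem_ofPred_eq]
      exact ⟨p.2, hp'⟩
    · intro p q _ _ h
      exact Subtype.ext h
    · intro p hp
      simp only [Finset.coe_filter, Set.mem_ofPred_eq] at hp
      refine ⟨⟨p, hp.1⟩, ?_, rfl⟩
      show ev d p.rep f = 0
      rw [ev_apply]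
      exact hp.2
  · intro g hg hgf
    obtain ⟨c, hc⟩ := huniq ⟨g, hg⟩ (by
      intro p hp
      rw [ev_apply] at hp ⊢
      exact hgf p.1 p.2 hp)
    exact ⟨c, congrArg Subtype.val hc⟩

end WW
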