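import Mathlib
import Pool.Agent.Lib_MP_a50277.Iface
import Pool.Agent.Lib_MP_a50277.Gen

/-!
# MP_a50277_co (Wiseman-Wilson), part B

A finite family of nonzero functionals on a finite dimensional real space, without common zero, in which no
two dependent subfamilies have spans meeting only in `0`, has an independent hyperplane (`WW.indep_hyperplane`,
`WW.claimB`).  Main steps: interior vertices of connected families (`WW.claimIU`), theorem T (`WW.thmT`).
-/

set_option autoImplicit false

namespace WW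

open Module Submodule


/-! ### basic lemmas -/

section Basic

variable {T : Type} [AddCommGroup T] [Module ℝ T] [FiniteDimensional ℝ T] {I : Type}
  (n : I → Dual ℝ T)

omit [FiniteDimensional ℝ T] in
theorem mem_span_of_ker (J : Finset I) (g : Dual ℝ T)
    (h : ∀ y : T, (∀ j ∈ J, n j y = 0) → g y = 0) : g ∈ span ℝ (n '' (J : Set I)) := by
  have key := mem_span_of_iInf_ker_le_ker (ι := J) (L := fun j => n j) (K := g) (by
    intro y hy
    simp only [Submodule.mem_iInf, LinearMap.mem_ker] at hy ⊢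
    exact h y (fun j hj => hy ⟨j, hj⟩))
  have : Set.range (fun j : J => n (j : I)) = n '' (J : Set I) := by
    ext f; simp
  rwa [this] at key

omit [FiniteDimensional ℝ T] in
theorem span_eval_zero {s : Set I} {z : T} (h : ∀ i ∈ s, n i z = 0) {g : Dual ℝ T}
    (hg : g ∈ span ℝ (n '' s)) : g z = 0 := by
  induction hg using Submodule.span_induction with
  | mem x hx => obtain ⟨i, hi, rfl⟩ := hx; exact h i hi
  | zero => rfl
  | add x y _ _ hx hy => simp [hx, hy]
  | smul a x _ hx => simp [hx]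

omit [FiniteDimensional ℝ T] in
/-- dependent set from an element of a span -/
theorem dep_insert [DecidableEq I] (J : Finset I) (G : I) (hG : G ∉ J)
    (h : n G ∈ span ℝ (n '' (J : Set I))) :
    ¬ LinearIndepOn ℝ n ((insert G J : Finset I) : Set I) := by
  intro hi
  rw [Finset.coe_insert] at hi
  have := (linearIndepOn_insert (by simpa using hG)).1 hi
  exact this.2 h

omit [FiniteDimensional ℝ T] in
theorem span_insert_eq [DecidableEq I] (J : Finset I) (G : I)
    (h : n G ∈ span ℝ (n '' (J : Set I))) :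
    span ℝ (n '' ((insert G J : Finset I) : Set I)) = span ℝ (n '' (J : Set I)) := by
  rw [Finset.coe_insert, Set.image_insert_eq]
  exact Submodule.span_insert_eq_span h

end Basic

/-! ### Claim I: interior vertices of connected families -/

section ClaimI

variable {T : Type} [AddCommGroup T] [Module ℝ T] {I : Type} [DecidableEq I]
  (n : I → Dual ℝ T)

/-- primal form of connectedness on the subspace `U` -/
def ConnU (S : Finset I) (U : Submodule ℝ T) : Prop :=
  ∀ A B : Submodule ℝ T, A ⊔ B = U → Disjoint A B →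
    (∀ i ∈ S, (∀ u ∈ A, n i u = 0) ∨ (∀ u ∈ B, n i u = 0)) → A = ⊥ ∨ B = ⊥

/-- the hyperplane of `U` on which `n e` vanishes -/
def hyp (U : Submodule ℝ T) (e : I) : Submodule ℝ T := U ⊓ LinearMap.ker (n e)

omit [DecidableEq I] in
theorem mem_hyp {U : Submodule ℝ T} {e : I} {x : T} : x ∈ hyp n U e ↔ x ∈ U ∧ n e x = 0 := by
  simp [hyp]

omit [DecidableEq I] in
/-- for the component `A` of `hyp U e`: the common kernel of the functionals vanishing on `A` is `A` -/
theorem comp_closed {S : Finset I} {U : Submodule ℝ T} {e : I} {A B : Submodule ℝ T}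
    (hsp : ∀ y ∈ U, (∀ i ∈ S, n i y = 0) → y = 0)
    (hconn : ConnU n S U) (hAB : A ⊔ B = hyp n U e) 
    (hv : ∀ i ∈ S, i ≠ e → (∀ u ∈ A, n i u = 0) ∨ (∀ u ∈ B, n i u = 0)) (hA : A ≠ ⊥) (hB : B ≠ ⊥)
    {u : T} (hu : u ∈ U) (huK : ∀ i ∈ S, i ≠ e → (∀ a ∈ A, n i a = 0) → n i u = 0) :
    u ∈ A := by
  have hAle : A ≤ hyp n U e := hAB ▸ le_sup_left
  have hBle : B ≤ hyp n U e := hAB ▸ le_sup_right
  set K : Submodule ℝ T :=
    { carrier := {x | x ∈ U ∧ ∀ i ∈ S, i ≠ e → (∀ a ∈ A, n i a = 0) → n i x = 0}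
      zero_mem' := ⟨U.zero_mem, fun i _ _ _ => map_zero _⟩
      add_mem' := fun {a b} ha hb => ⟨U.add_mem ha.1 hb.1, fun i h1 h2 h3 => by
        simp [ha.2 i h1 h2 h3, hb.2 i h1 h2 h3]⟩
      smul_mem' := fun c x hx => ⟨U.smul_mem c hx.1, fun i h1 h2 h3 => by
        simp [hx.2 i h1 h2 h3]⟩ } with hK
  have hmemK : ∀ x, x ∈ K ↔ x ∈ U ∧ ∀ i ∈ S, i ≠ e → (∀ a ∈ A, n i a = 0) → n i x = 0 :=
    fun x => Iff.rfl
  have hAK : A ≤ K := fun a ha =>
    (hmemK a).2 ⟨((mem_hyp n).1 (hAle ha)).1, fun i _ _ h => h a ha⟩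
  have hKU : K ≤ U := fun x hx => ((hmemK x).1 hx).1
  have hdis : Disjoint K B := by
    rw [Submodule.disjoint_def]
    intro x hxK hxB
    refine hsp x (hKU hxK) (fun i hi => ?_)
    by_cases hie : i = e
    · rw [hie]; exact ((mem_hyp n).1 (hBle hxB)).2
    · rcases hv i hi hie with h | h
      · exact ((hmemK x).1 hxK).2 i hi hie h
      · exact h x hxB
  have huK' : u ∈ K := (hmemK u).2 ⟨hu, huK⟩
  by_cases hall : ∀ x ∈ K, n e x = 0
  · have h1 : u ∈ A ⊔ B := by
      rw [hAB]; exact (mem_hyp n).2 ⟨hu, hall u huK'⟩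
    obtain ⟨a, ha, b, hb, hab⟩ := Submodule.mem_sup.1 h1
    have h2 : b ∈ K := by
      have : b = u - a := by rw [← hab]; abel
      rw [this]; exact K.sub_mem huK' (hAK ha)
    have h3 : b = 0 := Submodule.disjoint_def.1 hdis b h2 hb
    rw [← hab, h3, add_zero]; exact ha
  · push Not at hall
    obtain ⟨x, hxK, hx⟩ := hall
    exfalso
    have hKB : K ⊔ B = U := by
      refine le_antisymm (sup_le hKU (hBle.trans inf_le_left)) (fun y hy => ?_)
      have h1 : y - (n e y / n e x) • x ∈ A ⊔ B := by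
        rw [hAB]
        refine (mem_hyp n).2 ⟨U.sub_mem hy (U.smul_mem _ (hKU hxK)), ?_⟩
        simp only [map_sub, map_smul, smul_eq_mul]
        field_simp
        ring
      have h2 : y = (y - (n e y / n e x) • x) + (n e y / n e x) • x := by abel
      rw [h2]
      refine Submodule.add_mem _ ((sup_le_sup_right hAK B) h1) ?_
      exact Submodule.smul_mem _ _ (Submodule.mem_sup_left hxK)
    rcases hconn K B hKB hdis (fun i hi => by
      by_cases hie : i = e
      · right; intro u hu; rw [hie]; exact ((mem_hyp n).1 (hBle hu)).2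
      · rcases hv i hi hie with h | h
        · left; intro u hu; exact ((hmemK u).1 hu).2 i hi hie h
        · right; exact h) with h | h
    · exact hA (le_bot_iff.1 (h ▸ hAK))
    · exact hB h

/-- a vector of `U` killed by all functionals but `e` -/
theorem erase_spans {S : Finset I} {U : Submodule ℝ T} {e : I}
    (hsp : ∀ y ∈ U, (∀ i ∈ S, n i y = 0) → y = 0) (hconn : ConnU n S U)
    (hU0 : hyp n U e ≠ ⊥) : ∀ y ∈ U, (∀ i ∈ S.erase e, n i y = 0) → y = 0 := by
  intro y hy hky
  by_contra hy0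
  have hey : n e y ≠ 0 := by
    intro h
    refine hy0 (hsp y hy (fun i hi => ?_))
    by_cases hie : i = e
    · rw [hie]; exact h
    · exact hky i (Finset.mem_erase.2 ⟨hie, hi⟩)
  rcases hconn (span ℝ {y}) (hyp n U e) (by
    refine le_antisymm (sup_le (by rw [Submodule.span_singleton_le_iff_mem]; exact hy) inf_le_left)
      (fun x hx => ?_)
    have h2 : x = (n e x / n e y) • y + (x - (n e x / n e y) • y) := by abel
    rw [h2]
    refine Submodule.add_mem _ (Submodule.mem_sup_left (Submodule.smul_mem _ _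
      (Submodule.mem_span_singleton_self y))) (Submodule.mem_sup_right ?_)
    refine (mem_hyp n).2 ⟨U.sub_mem hx (U.smul_mem _ hy), ?_⟩
    simp only [map_sub, map_smul, smul_eq_mul]
    field_simp
    ring) (by
    rw [Submodule.disjoint_def]
    intro x hx1 hx2
    obtain ⟨c, rfl⟩ := Submodule.mem_span_singleton.1 hx1
    have := ((mem_hyp n).1 hx2).2
    rw [map_smul, smul_eq_mul] at this
    rw [(mul_eq_zero.1 this).resolve_right hey, zero_smul]) (fun i hi => by
    by_cases hie : i = e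
    · right; intro u hu; rw [hie]; exact ((mem_hyp n).1 hu).2
    · left; intro u hu
      obtain ⟨c, rfl⟩ := Submodule.mem_span_singleton.1 hu
      rw [map_smul, hky i (Finset.mem_erase.2 ⟨hie, hi⟩), smul_zero]) with h | h
  · exact hy0 (by simpa using h)
  · exact hU0 h

/-- deletion or contraction of `e` is connected -/
theorem del_or_contr {S : Finset I} {U : Submodule ℝ T} {e : I}
    (hsp : ∀ y ∈ U, (∀ i ∈ S, n i y = 0) → y = 0) (hconn : ConnU n S U) :
    ConnU n (S.erase e) U ∨ ConnU n (S.erase e) (hyp n U e) := by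
  by_contra hcon
  push Not at hcon
  obtain ⟨h1, h2⟩ := hcon
  unfold ConnU at h1 h2
  push Not at h1 h2
  obtain ⟨C, D, hCD, hCDd, hCDv, hC0, hD0⟩ := h1
  obtain ⟨A, B, hAB, hABd, hABv, hA0, hB0⟩ := h2
  have hCU : C ≤ U := hCD ▸ le_sup_left
  have hDU : D ≤ U := hCD ▸ le_sup_right
  have hAle : A ≤ hyp n U e := hAB ▸ le_sup_left
  have hBle : B ≤ hyp n U e := hAB ▸ le_sup_right
  have hABv' : ∀ i ∈ S, i ≠ e → (∀ u ∈ A, n i u = 0) ∨ (∀ u ∈ B, n i u = 0) :=
    fun i hi hie => hABv i (Finset.mem_erase.2 ⟨hie, hi⟩)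
  have hCDv' : ∀ i ∈ S, i ≠ e → (∀ u ∈ C, n i u = 0) ∨ (∀ u ∈ D, n i u = 0) :=
    fun i hi hie => hCDv i (Finset.mem_erase.2 ⟨hie, hi⟩)
  have hC : ∃ c ∈ C, n e c ≠ 0 := by
    by_contra hcon
    push Not at hcon
    rcases hconn C D hCD hCDd (fun i hi => by
      by_cases hie : i = e
      · left; rw [hie]; exact hcon
      · exact hCDv' i hi hie) with h | h
    · exact hC0 h
    · exact hD0 h
  have hD : ∃ c ∈ D, n e c ≠ 0 := by
    by_contra hcon
    push Not at hcon
    rcases hconn C D hCD hCDd (fun i hi => by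
      by_cases hie : i = e
      · right; rw [hie]; exact hcon
      · exact hCDv' i hi hie) with h | h
    · exact hC0 h
    · exact hD0 h
  -- components of elements of `A`, `B` along `C`, `D`
  have hcompl : ∀ (A B : Submodule ℝ T), A ⊔ B = hyp n U e →
      (∀ i ∈ S, i ≠ e → (∀ u ∈ A, n i u = 0) ∨ (∀ u ∈ B, n i u = 0)) → A ≠ ⊥ → B ≠ ⊥ →
      ∀ a ∈ A, ∃ c ∈ C, ∃ d ∈ D, c + d = a ∧ n e c = 0 := by
    intro A B hAB hv hA hB a ha
    have hAle : A ≤ hyp n U e := hAB ▸ le_sup_left
    have haU : a ∈ C ⊔ D := by rw [hCD]; exact ((mem_hyp n).1 (hAle ha)).1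
    obtain ⟨c, hc, d, hd, hcd⟩ := Submodule.mem_sup.1 haU
    refine ⟨c, hc, d, hd, hcd, ?_⟩
    have hcA : c ∈ A := by
      refine comp_closed n hsp hconn hAB hv hA hB (hCU hc) (fun i hi hie hiA => ?_)
      rcases hCDv' i hi hie with h | h
      · exact h c hc
      · have h3 : n i a = 0 := hiA a ha
        rw [← hcd, map_add, h d hd, add_zero] at h3
        exact h3
    exact ((mem_hyp n).1 (hAle hcA)).2
  obtain ⟨c, hc, hec⟩ := hC
  obtain ⟨d, hd, hed⟩ := hD
  have h3 : (n e d) • c - (n e c) • d ∈ A ⊔ B := by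
    rw [hAB]
    refine (mem_hyp n).2 ⟨U.sub_mem (U.smul_mem _ (hCU hc)) (U.smul_mem _ (hDU hd)), ?_⟩
    simp only [map_sub, map_smul, smul_eq_mul]
    ring
  obtain ⟨a, ha, b, hb, hab⟩ := Submodule.mem_sup.1 h3
  obtain ⟨c1, hc1, d1, hd1, hcd1, he1⟩ := hcompl A B hAB hABv' hA0 hB0 a ha
  obtain ⟨c2, hc2, d2, hd2, hcd2, he2⟩ := hcompl B A (by rw [sup_comm]; exact hAB)
    (fun i hi hie => (hABv' i hi hie).symm) hB0 hA0 b hb
  have h4 : (n e d) • c - c1 - c2 ∈ C := C.sub_mem (C.sub_mem (C.smul_mem _ hc) hc1) hc2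
  have h5 : (n e d) • c - c1 - c2 = (n e c) • d + d1 + d2 := by
    have : (n e d) • c - (n e c) • d = c1 + d1 + (c2 + d2) := by
      rw [hcd1, hcd2, hab]
    have h6 : (n e d) • c = (n e c) • d + (c1 + d1 + (c2 + d2)) := by
      rw [← this]; abel
    rw [h6]; abel
  have h6 : (n e d) • c - c1 - c2 = 0 := by
    refine Submodule.disjoint_def.1 hCDd _ h4 ?_
    rw [h5]
    exact D.add_mem (D.add_mem (D.smul_mem _ hd) hd1) hd2
  have h7 := congrArg (n e) h6
  simp only [map_sub, map_smul, smul_eq_mul, he1, he2, map_zero, sub_zero] at h7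
  rcases mul_eq_zero.1 h7 with h | h
  · exact hed h
  · exact hec h

end ClaimI

section ClaimI2

variable {T : Type} [AddCommGroup T] [Module ℝ T] {I : Type} [DecidableEq I]
  (n : I → Dual ℝ T)

/-- vertices in the subspace `U` -/
def IVt (l : Dual ℝ T) (S : Finset I) (U : Submodule ℝ T) : Set T :=
  {x | x ∈ U ∧ l x = 1 ∧ ∀ y ∈ U, (∀ i ∈ S, n i x = 0 → n i y = 0) → y = l y • x}

theorem IVt_erase {l : Dual ℝ T} {S : Finset I} {U : Submodule ℝ T} {e : I} (he : e ∈ S) {x : T} :
    x ∈ IVt n l (S.erase e) (hyp n U e) ↔ x ∈ IVt n l S U ∧ n e x = 0 := by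
  constructor
  · rintro ⟨h1, h2, h3⟩
    obtain ⟨h4, h5⟩ := (mem_hyp n).1 h1
    refine ⟨⟨h4, h2, fun y hy hk => h3 y ((mem_hyp n).2 ⟨hy, hk e he h5⟩)
      (fun i hi h0 => hk i (Finset.mem_of_mem_erase hi) h0)⟩, h5⟩
  · rintro ⟨⟨h1, h2, h3⟩, h5⟩
    refine ⟨(mem_hyp n).2 ⟨h1, h5⟩, h2, fun y hy hk => h3 y ((mem_hyp n).1 hy).1
      (fun i hi h0 => ?_)⟩
    by_cases hie : i = e
    · rw [hie]; exact ((mem_hyp n).1 hy).2
    · exact hk i (Finset.mem_erase.2 ⟨hie, hi⟩) h0

omit [DecidableEq I] in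
/-- a functional vanishing on `hyp U e` is a multiple of `n e` on `U` -/
theorem eq_smul_of_hyp {U : Submodule ℝ T} {e : I} {x : T} (hx : x ∈ U) (hex : n e x ≠ 0)
    (g : Dual ℝ T) (hg : ∀ y ∈ hyp n U e, g y = 0) : ∀ y ∈ U, g y = g x / n e x * n e y := by
  intro y hy
  have h1 := hg (y - (n e y / n e x) • x) ((mem_hyp n).2 ⟨U.sub_mem hy (U.smul_mem _ hx), by
    simp only [map_sub, map_smul, smul_eq_mul]
    field_simp
    ring⟩)
  simp only [map_sub, map_smul, smul_eq_mul] at h1
  have : g y = n e y / n e x * g x := by linarith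
  rw [this]; ring

theorem claimIU (l : Dual ℝ T) : ∀ (m : ℕ) (S : Finset I) (U : Submodule ℝ T), S.card = m →
    U ≠ ⊥ → (∀ i ∈ S, ∃ u ∈ U, n i u ≠ 0) → (∀ y ∈ U, (∀ i ∈ S, n i y = 0) → y = 0) →
    ConnU n S U →
    (∀ x ∈ U, x ≠ 0 → (∀ y ∈ U, (∀ i ∈ S, n i x = 0 → n i y = 0) → ∃ c : ℝ, y = c • x) →
      l x ≠ 0) →
    ∃ z ∈ IVt n l S U, ∀ g : Dual ℝ T, (∀ v ∈ IVt n l S U, 0 ≤ g v) → g z = 0 →
      ∀ y ∈ U, g y = 0 := by
  intro m
  induction m using Nat.strong_induction_on with
  | _ m ih =>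
  intro S U hm hU hne hsp hconn hl
  -- case (a)
  by_cases ha : ∃ e ∈ S, ConnU n (S.erase e) U ∧ ∀ y ∈ U, (∀ i ∈ S.erase e, n i y = 0) → y = 0
  · obtain ⟨e, he, h1, h2⟩ := ha
    have hcard : (S.erase e).card < S.card := Finset.card_erase_lt_of_mem he
    obtain ⟨z, hz, hint⟩ := ih _ (hm ▸ hcard) (S.erase e) U rfl hU
      (fun i hi => hne i (Finset.mem_of_mem_erase hi)) h2 h1
      (fun x hx hx0 hxv => hl x hx hx0 (fun y hy hk => hxv y hy
        (fun i hi => hk i (Finset.mem_of_mem_erase hi))))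
    have hsub : IVt n l (S.erase e) U ⊆ IVt n l S U := fun x hx =>
      ⟨hx.1, hx.2.1, fun y hy hk => hx.2.2 y hy (fun i hi => hk i (Finset.mem_of_mem_erase hi))⟩
    exact ⟨z, hsub hz, fun g hg => hint g (fun v hv => hg v (hsub hv))⟩
  push Not at ha
  -- one dimensional case
  by_cases hone : ∃ e ∈ S, hyp n U e = ⊥
  · obtain ⟨e, he, h1⟩ := hone
    obtain ⟨x, hx, hex⟩ := hne e he
    have hx0 : x ≠ 0 := by rintro rfl; simp at hex
    have hline : ∀ y ∈ U, y = (n e y / n e x) • x := by
      intro y hy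
      have : y - (n e y / n e x) • x ∈ hyp n U e :=
        (mem_hyp n).2 ⟨U.sub_mem hy (U.smul_mem _ hx), by
          simp only [map_sub, map_smul, smul_eq_mul]
          field_simp
          ring⟩
      rw [h1, Submodule.mem_bot, sub_eq_zero] at this
      exact this
    have hlx : l x ≠ 0 := hl x hx hx0 (fun y hy _ => ⟨_, hline y hy⟩)
    refine ⟨(l x)⁻¹ • x, ⟨U.smul_mem _ hx, by simp [hlx], fun y hy _ => ?_⟩, fun g _ hgz y hy => ?_⟩
    · have h2 := hline y hy
      have h3 : l y = n e y / n e x * l x := by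
        conv_lhs => rw [h2]
        simp
      rw [h3, smul_smul, mul_assoc, mul_inv_cancel₀ hlx, mul_one]
      exact h2
    · have h2 : g x = 0 := by
        rw [map_smul, smul_eq_mul] at hgz
        exact (mul_eq_zero.1 hgz).resolve_left (inv_ne_zero hlx)
      rw [hline y hy, map_smul, h2, smul_zero]
  push Not at hone
  -- contractions are connected
  have hcontr : ∀ e ∈ S, ConnU n (S.erase e) (hyp n U e) := by
    intro e he
    rcases del_or_contr n (e := e) hsp hconn with h | h
    · obtain ⟨y, hy, hk, hy0⟩ := ha e he h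
      exact absurd (erase_spans n hsp hconn (hone e he) y hy hk) hy0
    · exact h
  -- simplicity
  have hsimple : ∀ e ∈ S, ∀ f ∈ S, f ≠ e → ∃ u ∈ hyp n U e, n f u ≠ 0 := by
    intro e he f hf hfe
    by_contra hcon
    push Not at hcon
    obtain ⟨x, hx, hex⟩ := hne e he
    have hmul := eq_smul_of_hyp n hx hex (n f) hcon
    have hcf : ConnU n (S.erase f) U := by
      intro A B hAB hABd hv
      refine hconn A B hAB hABd (fun i hi => ?_)
      by_cases hif : i = f
      · have hAU : A ≤ U := hAB ▸ le_sup_left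
        have hBU : B ≤ U := hAB ▸ le_sup_right
        rcases hv e (Finset.mem_erase.2 ⟨hfe.symm, he⟩) with h | h
        · left; intro u hu; rw [hif, hmul u (hAU hu), h u hu, mul_zero]
        · right; intro u hu; rw [hif, hmul u (hBU hu), h u hu, mul_zero]
      · exact hv i (Finset.mem_erase.2 ⟨hif, hi⟩)
    obtain ⟨y, hy, hk, hy0⟩ := ha f hf hcf
    exact hy0 (erase_spans n hsp hconn (hone f hf) y hy hk)
  -- interior vertices of the contractions
  have hw : ∀ e ∈ S, ∃ w, (w ∈ IVt n l S U ∧ n e w = 0) ∧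
      ∀ g : Dual ℝ T, (∀ v ∈ IVt n l S U, n e v = 0 → 0 ≤ g v) → g w = 0 →
        ∀ y ∈ hyp n U e, g y = 0 := by
    intro e he
    have hcard : (S.erase e).card < S.card := Finset.card_erase_lt_of_mem he
    obtain ⟨z, hz, hint⟩ := ih _ (hm ▸ hcard) (S.erase e) (hyp n U e) rfl (hone e he)
      (fun i hi => hsimple e he i (Finset.mem_of_mem_erase hi) (Finset.ne_of_mem_erase hi))
      (fun y hy hk => hsp y ((mem_hyp n).1 hy).1 (fun i hi => by
        by_cases hie : i = e
        · rw [hie]; exact ((mem_hyp n).1 hy).2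
        · exact hk i (Finset.mem_erase.2 ⟨hie, hi⟩)))
      (hcontr e he)
      (fun x hx hx0 hxv => by
        obtain ⟨hxU, hex⟩ := (mem_hyp n).1 hx
        exact hl x hxU hx0 (fun y hy hk => hxv y ((mem_hyp n).2 ⟨hy, hk e he hex⟩)
          (fun i hi => hk i (Finset.mem_of_mem_erase hi))))
    refine ⟨z, (IVt_erase n he).1 hz, fun g hg => hint g (fun v hv => ?_)⟩
    obtain ⟨h1, h2⟩ := (IVt_erase n he).1 hv
    exact hg v h1 h2
  by_cases hsides : ∃ e ∈ S, (∃ v ∈ IVt n l S U, 0 < n e v) ∧ ∃ v ∈ IVt n l S U, n e v < 0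
  · obtain ⟨e, he, ⟨v1, hv1, h1⟩, ⟨v2, hv2, h2⟩⟩ := hsides
    obtain ⟨w, ⟨hwV, hew⟩, hint⟩ := hw e he
    refine ⟨w, hwV, fun g hg hgw y hy => ?_⟩
    have h3 := eq_smul_of_hyp n hv1.1 h1.ne' g (hint g (fun v hv _ => hg v hv) hgw)
    have h4 := hg v1 hv1
    have h5 := hg v2 hv2
    rw [h3 v2 hv2.1] at h5
    have h6 : 0 ≤ g v1 / n e v1 := div_nonneg h4 h1.le
    have h7 : g v1 / n e v1 = 0 := by
      by_contra hcon
      have h8 : 0 < g v1 / n e v1 := lt_of_le_of_ne h6 (Ne.symm hcon)
      nlinarith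
    rw [h3 y hy, h7, zero_mul]
  push Not at hsides
  -- now every functional has constant weak sign
  have hsgn : ∀ e ∈ S, ∃ s : ℝ, s ≠ 0 ∧ ∀ v ∈ IVt n l S U, 0 ≤ s * n e v := by
    intro e he
    by_cases h : ∃ v ∈ IVt n l S U, 0 < n e v
    · exact ⟨1, one_ne_zero, fun v hv => by simpa using hsides e he h v hv⟩
    · push Not at h
      exact ⟨-1, by norm_num, fun v hv => by simpa using h v hv⟩
  -- the vertex `w e` lies on no other hyperplane
  have honly : ∀ e ∈ S, ∀ w, (w ∈ IVt n l S U ∧ n e w = 0) → (∀ g : Dual ℝ T,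
      (∀ v ∈ IVt n l S U, n e v = 0 → 0 ≤ g v) → g w = 0 → ∀ y ∈ hyp n U e, g y = 0) →
      ∀ f ∈ S, f ≠ e → n f w ≠ 0 := by
    intro e he w hwV hint f hf hfe h0
    obtain ⟨s, hs, hsv⟩ := hsgn f hf
    obtain ⟨u, hu, hfu⟩ := hsimple e he f hf hfe
    have := hint (s • n f) (fun v hv _ => by simpa using hsv v hv) (by simp [h0]) u hu
    simp only [LinearMap.smul_apply, smul_eq_mul] at this
    rcases mul_eq_zero.1 this with h | h
    · exact hs h
    · exact hfu h
  choose! w hwV hwint using hw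
  have honly' : ∀ e ∈ S, ∀ f ∈ S, f ≠ e → n f (w e) ≠ 0 := fun e he f hf hfe =>
    honly e he (w e) (hwV e he) (hwint e he) f hf hfe
  have hline : ∀ e ∈ S, ∀ y ∈ hyp n U e, y = l y • w e := by
    intro e he y hy
    obtain ⟨hyU, hey⟩ := (mem_hyp n).1 hy
    refine (hwV e he).1.2.2 y hyU (fun i hi h0 => ?_)
    by_cases hie : i = e
    · rw [hie]; exact hey
    · exact absurd h0 (honly' e he i hi hie)
  have hSne : S.Nonempty := by
    by_contra h
    rw [Finset.not_nonempty_iff_eq_empty] at h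
    apply hU
    rw [eq_bot_iff]
    intro y hy
    rw [Submodule.mem_bot]
    exact hsp y hy (fun i hi => by rw [h] at hi; simp at hi)
  obtain ⟨e, he⟩ := hSne
  have hwne : ∀ e ∈ S, w e ≠ 0 := by
    intro e he h0
    have := (hwV e he).1.2.1
    rw [h0] at this; simp at this
  obtain ⟨f, hf, hfw⟩ : ∃ f ∈ S, n f (w e) ≠ 0 := by
    by_contra hcon
    push Not at hcon
    exact hwne e he (hsp _ (hwV e he).1.1 hcon)
  have hfe : f ≠ e := by
    rintro rfl; exact hfw (hwV f he).2
  have hef : n e (w f) ≠ 0 := honly' f hf e he hfe.symm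
  have hdecomp : ∀ y ∈ U, y = l (y - (n e y / n e (w f)) • w f) • w e
      + (n e y / n e (w f)) • w f := by
    intro y hy
    have h1 : y - (n e y / n e (w f)) • w f ∈ hyp n U e :=
      (mem_hyp n).2 ⟨U.sub_mem hy (U.smul_mem _ (hwV f hf).1.1), by
        simp only [map_sub, map_smul, smul_eq_mul]
        field_simp
        ring⟩
    have h2 := hline e he _ h1
    rw [← h2]; abel
  obtain ⟨g, hg, hgw1, hgw2⟩ : ∃ g ∈ S, n g (w e) ≠ 0 ∧ n g (w f) ≠ 0 := by
    by_contra hcon
    push Not at hcon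
    rcases hconn (span ℝ {w e}) (span ℝ {w f}) (by
      refine le_antisymm (sup_le ?_ ?_) (fun y hy => ?_)
      · rw [Submodule.span_singleton_le_iff_mem]; exact (hwV e he).1.1
      · rw [Submodule.span_singleton_le_iff_mem]; exact (hwV f hf).1.1
      · rw [hdecomp y hy]
        exact Submodule.add_mem _
          (Submodule.mem_sup_left (Submodule.smul_mem _ _ (Submodule.mem_span_singleton_self _)))
          (Submodule.mem_sup_right (Submodule.smul_mem _ _ (Submodule.mem_span_singleton_self _))))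
      (by
        rw [Submodule.disjoint_def]
        intro x hx1 hx2
        obtain ⟨c, rfl⟩ := Submodule.mem_span_singleton.1 hx1
        obtain ⟨d, hd⟩ := Submodule.mem_span_singleton.1 hx2
        have h1 : n f (c • w e) = 0 := by
          rw [← hd, map_smul, (hwV f hf).2, smul_zero]
        rw [map_smul, smul_eq_mul] at h1
        rw [(mul_eq_zero.1 h1).resolve_right hfw, zero_smul])
      (fun i hi => by
        by_cases h1 : n i (w e) = 0
        · left; intro u hu
          obtain ⟨c, rfl⟩ := Submodule.mem_span_singleton.1 hu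
          rw [map_smul, h1, smul_zero]
        · right; intro u hu
          obtain ⟨c, rfl⟩ := Submodule.mem_span_singleton.1 hu
          rw [map_smul, hcon i hi h1, smul_zero]) with h | h
    · exact hwne e he (by simpa using h)
    · exact hwne f hf (by simpa using h)
  -- final contradiction in the plane
  exfalso
  have hge : g ≠ e := by rintro rfl; exact hgw1 (hwV g hg).2
  have hgf : g ≠ f := by rintro rfl; exact hgw2 (hwV g hg).2
  have heg : n e (w g) ≠ 0 := honly' g hg e he hge.symm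
  have hfg : n f (w g) ≠ 0 := honly' g hg f hf hgf.symm
  obtain ⟨α, β, hαβ⟩ : ∃ α β : ℝ, w g = α • w e + β • w f := ⟨_, _, hdecomp _ (hwV g hg).1.1⟩
  have e1 : n e (w g) = β * n e (w f) := by
    rw [hαβ, map_add, map_smul, map_smul, (hwV e he).2]; simp
  have e2 : n f (w g) = α * n f (w e) := by
    rw [hαβ, map_add, map_smul, map_smul, (hwV f hf).2]; simp
  have e3 : α * n g (w e) + β * n g (w f) = 0 := by
    have := (hwV g hg).2
    rw [hαβ, map_add, map_smul, map_smul] at this
    simpa using this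
  obtain ⟨s1, hs1, hp1⟩ := hsgn e he
  obtain ⟨s2, hs2, hp2⟩ := hsgn f hf
  obtain ⟨s3, hs3, hp3⟩ := hsgn g hg
  have hpos : ∀ (s a : ℝ), s ≠ 0 → a ≠ 0 → 0 ≤ s * a → 0 < s * a := fun s a h1 h2 h3 =>
    lt_of_le_of_ne h3 (Ne.symm (mul_ne_zero h1 h2))
  have hβ : 0 < β := by
    have h1 := hpos s1 _ hs1 heg (hp1 _ (hwV g hg).1)
    have h2 := hpos s1 _ hs1 hef (hp1 _ (hwV f hf).1)
    rw [e1] at h1
    by_contra hcon
    push Not at hcon
    have : s1 * (β * n e (w f)) = β * (s1 * n e (w f)) := by ring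
    rw [this] at h1
    nlinarith
  have hα : 0 < α := by
    have h1 := hpos s2 _ hs2 hfg (hp2 _ (hwV g hg).1)
    have h2 := hpos s2 _ hs2 hfw (hp2 _ (hwV e he).1)
    rw [e2] at h1
    by_contra hcon
    push Not at hcon
    have : s2 * (α * n f (w e)) = α * (s2 * n f (w e)) := by ring
    rw [this] at h1
    nlinarith
  have h1 := hpos s3 _ hs3 hgw1 (hp3 _ (hwV e he).1)
  have h2 := hpos s3 _ hs3 hgw2 (hp3 _ (hwV f hf).1)
  have h3 : α * (s3 * n g (w e)) + β * (s3 * n g (w f)) = 0 := by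
    linear_combination s3 * e3
  have h4 := mul_pos hα h1
  have h5 := mul_pos hβ h2
  linarith

end ClaimI2

/-! ### vertices of the relative arrangement -/

section Vt

variable {T : Type} [AddCommGroup T] [Module ℝ T] {I : Type} [DecidableEq I]
  (n : I → Dual ℝ T)

/-- vertices `x`, `l x = 1`, of the arrangement of the functionals in `F ∪ J`, in the kernel of `J` -/
def Vt (l : Dual ℝ T) (F J : Finset I) : Set T :=
  {x | l x = 1 ∧ (∀ j ∈ J, n j x = 0) ∧
    ∀ y : T, (∀ i ∈ F ∪ J, n i x = 0 → n i y = 0) → y = l y • x}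

theorem Vt_finite (l : Dual ℝ T) (F J : Finset I) : (Vt n l F J).Finite := by
  classical
  refine Set.Finite.of_injOn (f := fun x => (F ∪ J).filter (fun i => n i x = 0))
    (t := ((F ∪ J).powerset : Set (Finset I))) ?_ ?_ (Finset.finite_toSet _)
  · intro x _
    simp only [Finset.coe_powerset, Set.mem_preimage, Set.mem_powerset_iff, Finset.coe_subset]
    exact Finset.filter_subset _ _
  · intro x hx y hy hxy
    have h1 : y = l y • x := by
      refine hx.2.2 y (fun i hi h0 => ?_)
      have : i ∈ (F ∪ J).filter (fun i => n i x = 0) := Finset.mem_filter.2 ⟨hi, h0⟩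
      rw [show (F ∪ J).filter (fun i => n i x = 0) = (F ∪ J).filter (fun i => n i y = 0) from hxy]
        at this
      exact (Finset.mem_filter.1 this).2
    rw [h1, hy.1, one_smul]

theorem Vt_ne_zero {l : Dual ℝ T} {F J : Finset I} {x : T} (hx : x ∈ Vt n l F J) : x ≠ 0 := by
  rintro rfl
  have := hx.1
  simp at this

theorem mem_Vt {l : Dual ℝ T} {F J : Finset I} {x : T} (h1 : l x = 1)
    (h2 : ∀ j ∈ J, n j x = 0)
    (h3 : ∀ y : T, (∀ i ∈ F ∪ J, n i x = 0 → n i y = 0) → ∃ c : ℝ, y = c • x) :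
    x ∈ Vt n l F J := by
  refine ⟨h1, h2, fun y hy => ?_⟩
  obtain ⟨c, rfl⟩ := h3 y hy
  simp [h1]

omit [DecidableEq I] in
/-- point on the line through two vertices killed by a further functional is a vertex -/
theorem vert_on_line {S : Finset I} {z w : T} {i0 G : I} (hi0 : n i0 z ≠ 0)
    (hw : ∀ y : T, (∀ i ∈ S, n i z = 0 → n i w = 0 → n i y = 0) → n i0 y = 0 → ∃ c : ℝ, y = c • w)
    (hGS : G ∈ S) (hGw : n G w ≠ 0) {α β : ℝ} (hα : α ≠ 0) (hGu : n G (α • z + β • w) = 0) :
    ∀ y : T, (∀ i ∈ S, n i (α • z + β • w) = 0 → n i y = 0) →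
      ∃ c : ℝ, y = c • (α • z + β • w) := by
  intro y hy
  set γ : ℝ := n i0 y / n i0 z with hγ
  obtain ⟨c, hc⟩ := hw (y - γ • z) (by
    intro i hi hz hwi
    have h1 : n i y = 0 := hy i hi (by simp [hz, hwi])
    simp [h1, hz]) (by
    simp only [map_sub, map_smul, smul_eq_mul, hγ]
    field_simp
    ring)
  have hy' : y = γ • z + c • w := by
    rw [← hc]; abel
  have hGy : n G y = 0 := hy G hGS hGu
  rw [hy'] at hGy
  simp only [map_add, map_smul, smul_eq_mul] at hGy hGu
  have hcβ : c = γ / α * β := by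
    have h1 : α * (c * n G w) = γ * β * n G w := by
      linear_combination α * hGy - γ * hGu
    have h2 : (α * c - γ * β) * n G w = 0 := by linear_combination h1
    rcases mul_eq_zero.1 h2 with h3 | h3
    · field_simp
      linarith
    · exact absurd h3 hGw
  refine ⟨γ / α, ?_⟩
  rw [hy', hcβ, smul_add, smul_smul, smul_smul, div_mul_cancel₀ _ hα]

end Vt

/-! ### theorem T -/

section ThmT

variable {T : Type} [AddCommGroup T] [Module ℝ T] {I : Type} [DecidableEq I]
  (n : I → Dual ℝ T)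

/-- the conclusion of theorem T for the pair `(F, J)` -/
def Good (l : Dual ℝ T) (F J : Finset I) (x : T) (J' K : Finset I) : Prop :=
  x ∈ Vt n l F J ∧ J ⊆ J' ∧ J' ⊆ F ∪ J ∧ (∀ j ∈ J', n j x = 0) ∧
  LinearIndepOn ℝ n {i | i ∈ F ∪ J ∧ n i x = 0} ∧
  (∀ g : Dual ℝ T, (∀ v ∈ Vt n l F J, (∀ j ∈ J', n j v = 0) → 0 ≤ g v) → g x = 0 →
      ∀ y : T, (∀ j ∈ J', n j y = 0) → g y = 0) ∧
  K ⊆ F ∧ ¬ LinearIndepOn ℝ n (K : Set I) ∧
  Disjoint (span ℝ (n '' (K : Set I))) (span ℝ (n '' (J' : Set I)))

theorem no_G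
    (hC : ∀ A B : Finset I, ¬ LinearIndepOn ℝ n (A : Set I) → ¬ LinearIndepOn ℝ n (B : Set I) →
      ¬ Disjoint (span ℝ (n '' (A : Set I))) (span ℝ (n '' (B : Set I))))
    {l : Dual ℝ T} {F J J' K : Finset I} {x : T} (h : Good n l F J x J' K) (G : I) (hG : G ∉ J')
    (s : ℝ) (hs : s ≠ 0) (hsg : ∀ v ∈ Vt n l F J, 0 ≤ s * n G v) : n G x ≠ 0 := by
  intro h0
  obtain ⟨_, _, _, _, _, hR, _, hK, hd⟩ := h
  have h1 : n G ∈ span ℝ (n '' (J' : Set I)) := by
    refine mem_span_of_ker n J' (n G) (fun y hy => ?_)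
    have := hR (s • n G) (fun v hv _ => by simpa using hsg v hv) (by simp [h0]) y hy
    simpa [hs] using this
  refine hC K (insert G J') hK (dep_insert n J' G hG h1) ?_
  rw [span_insert_eq n J' G h1]
  exact hd

/-- interior vertices -/
def Intr (l : Dual ℝ T) (F J : Finset I) (z : T) : Prop :=
  z ∈ Vt n l F J ∧ ∀ g : Dual ℝ T, (∀ v ∈ Vt n l F J, 0 ≤ g v) → g z = 0 →
    ∀ y : T, (∀ j ∈ J, n j y = 0) → g y = 0

/-- the common kernel of the `n j`, `j ∈ J` -/
def kerS (J : Finset I) : Submodule ℝ T where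
  carrier := {x | ∀ j ∈ J, n j x = 0}
  zero_mem' := fun j _ => map_zero _
  add_mem' := fun {a b} ha hb j hj => by simp [ha j hj, hb j hj]
  smul_mem' := fun c x hx j hj => by simp [hx j hj]

omit [DecidableEq I] in
theorem mem_kerS {J : Finset I} {x : T} : x ∈ kerS n J ↔ ∀ j ∈ J, n j x = 0 := Iff.rfl

/-- existence of an interior vertex in the connected case -/
theorem exists_intr (l : Dual ℝ T) (F J : Finset I)
    (hne' : ∀ i ∈ F, ∃ u ∈ kerS n J, n i u ≠ 0)
    (hsp : ∀ y : T, (∀ i ∈ F ∪ J, n i y = 0) → y = 0) (hF : F.Nonempty)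
    (hl : ∀ x : T, x ≠ 0 → (∀ j ∈ J, n j x = 0) →
      (∀ y : T, (∀ i ∈ F ∪ J, n i x = 0 → n i y = 0) → ∃ c : ℝ, y = c • x) → l x ≠ 0)
    (hconn : ConnU n F (kerS n J)) : ∃ z, Intr n l F J z := by
  have hmemV : ∀ x, x ∈ IVt n l F (kerS n J) ↔ x ∈ Vt n l F J := by
    intro x
    constructor
    · rintro ⟨h1, h2, h3⟩
      refine ⟨h2, h1, fun y hy => h3 y (fun j hj => ?_) (fun i hi h0 => ?_)⟩
      · exact hy j (Finset.mem_union_right _ hj) (h1 j hj)
      · exact hy i (Finset.mem_union_left _ hi) h0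
    · rintro ⟨h1, h2, h3⟩
      refine ⟨h2, h1, fun y hy hk => h3 y (fun i hi h0 => ?_)⟩
      rcases Finset.mem_union.1 hi with h | h
      · exact hk i h h0
      · exact hy i h
  have hU : kerS n J ≠ ⊥ := by
    obtain ⟨i, hi⟩ := hF
    obtain ⟨u, hu, hiu⟩ := hne' i hi
    intro h
    rw [h, Submodule.mem_bot] at hu
    rw [hu] at hiu
    simp at hiu
  obtain ⟨z, hz, hint⟩ := claimIU n l F.card F (kerS n J) rfl hU hne'
    (fun y hy hk => hsp y (fun i hi => by
      rcases Finset.mem_union.1 hi with h | h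
      · exact hk i h
      · exact hy i h))
    hconn
    (fun x hx hx0 hxv => hl x hx0 hx (fun y hy => hxv y
      (fun j hj => hy j (Finset.mem_union_right _ hj) (hx j hj))
      (fun i hi h0 => hy i (Finset.mem_union_left _ hi) h0)))
  exact ⟨z, (hmemV z).1 hz, fun g hg hgz y hy =>
    hint g (fun v hv => hg v ((hmemV v).1 hv)) hgz y hy⟩

end ThmT

section ThmT2

variable {T : Type} [AddCommGroup T] [Module ℝ T] {I : Type} [DecidableEq I]
  (n : I → Dual ℝ T)

/-- the relative position of `Vt` when elements of `F` are moved to `J` -/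
theorem Vt_subset {l : Dual ℝ T} {F J F' J' : Finset I} (h1 : J ⊆ J') (h2 : F' ∪ J' ⊆ F ∪ J) :
    Vt n l F' J' ⊆ Vt n l F J :=
  fun _ hx => ⟨hx.1, fun j hj => hx.2.1 j (h1 hj), fun y hy => hx.2.2 y (fun i hi => hy i (h2 hi))⟩

/-- sign lemma in the step from `z` to the hyperplane `i0` -/
theorem sign_step {l : Dual ℝ T} {F J : Finset I} {z : T} {i0 : I} (hi0F : i0 ∈ F)
    (hz : Intr n l F J z) (hz0 : n i0 z ≠ 0)
    (hmin : ∀ u : T, Intr n l F J u → n i0 u ≠ 0 → |n i0 z| ≤ |n i0 u|)
    {G : I} (hG : G ∈ F) {v : T}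
    (hv : v ∈ Vt n l (F.filter (fun i => n i z = 0)) (insert i0 J)) :
    0 ≤ n G z * n G v := by
  by_contra hlt
  push Not at hlt
  have hGz : n G z ≠ 0 := by
    intro h; simp [h] at hlt
  have hGv : n G v ≠ 0 := by
    intro h; simp [h] at hlt
  set t : ℝ := n G z / (n G z - n G v) with ht
  have hne : n G z - n G v ≠ 0 := by
    intro h
    have : n G z = n G v := by linarith
    rw [this] at hlt
    nlinarith [mul_self_nonneg (n G v)]
  have hti : 0 < t ∧ t < 1 := by
    have h2 : 0 < (n G z - n G v) ^ 2 := by positivity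
    have e1 : t = n G z * (n G z - n G v) / (n G z - n G v) ^ 2 := by
      rw [ht]; field_simp
    constructor
    · rw [e1]
      refine div_pos ?_ h2
      nlinarith [mul_self_pos.2 hGz]
    · rw [e1, div_lt_one h2]
      nlinarith [mul_self_pos.2 hGv]
  have hv0 : n i0 v = 0 := hv.2.1 i0 (Finset.mem_insert_self _ _)
  have hzV := hz.1
  have hGu : n G ((1 - t) • z + t • v) = 0 := by
    simp only [map_add, map_smul, smul_eq_mul, ht]
    field_simp
    ring
  have hα : (1 - t) ≠ 0 := by
    have := hti.2; intro h; linarith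
  have hvert := vert_on_line n (S := F ∪ J) (z := z) (w := v) (i0 := i0) (G := G) hz0
    (by
      intro y hy hy0
      refine ⟨l y, hv.2.2 y (fun i hi hiv => ?_)⟩
      rcases Finset.mem_union.1 hi with h | h
      · have h' := Finset.mem_filter.1 h
        exact hy i (Finset.mem_union_left _ h'.1) h'.2 hiv
      · rcases Finset.mem_insert.1 h with h | h
        · rw [h]; exact hy0
        · exact hy i (Finset.mem_union_right _ h) (hzV.2.1 i h) hiv)
    (Finset.mem_union_left _ hG) hGv hα hGu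
  have hvV : v ∈ Vt n l F J := by
    refine Vt_subset n (Finset.subset_insert _ _) ?_ hv
    intro i hi
    rcases Finset.mem_union.1 hi with h | h
    · exact Finset.mem_union_left _ (Finset.mem_filter.1 h).1
    · rcases Finset.mem_insert.1 h with h | h
      · rw [h]; exact Finset.mem_union_left _ hi0F
      · exact Finset.mem_union_right _ h
  have huV : (1 - t) • z + t • v ∈ Vt n l F J := by
    refine mem_Vt n ?_ (fun j hj => ?_) hvert
    · simp [hzV.1, hvV.1]
    · simp [hzV.2.1 j hj, hvV.2.1 j hj]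
  have huI : Intr n l F J ((1 - t) • z + t • v) := by
    refine ⟨huV, fun g hg hgu y hy => hz.2 g hg ?_ y hy⟩
    have h1 := hg z hzV
    have h2 := hg v hvV
    simp only [map_add, map_smul, smul_eq_mul] at hgu
    have h3 : 0 < 1 - t := by linarith [hti.2]
    have h4 : 0 ≤ t * g v := mul_nonneg hti.1.le h2
    have h5 : (1 - t) * g z ≤ 0 := by linarith
    have h6 : g z ≤ 0 := by
      by_contra hcon
      push Not at hcon
      have := mul_pos h3 hcon
      linarith
    linarith
  have hn : n i0 ((1 - t) • z + t • v) = (1 - t) * n i0 z := by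
    simp [hv0]
  have := hmin _ huI (by rw [hn]; exact mul_ne_zero hα hz0)
  rw [hn, abs_mul, abs_of_pos (by linarith [hti.2] : (0:ℝ) < 1 - t)] at this
  have h7 : 0 < |n i0 z| := abs_pos.2 hz0
  nlinarith [hti.1]

theorem thmT [FiniteDimensional ℝ T] (hne : ∀ i, n i ≠ 0)
    (hC : ∀ A B : Finset I, ¬ LinearIndepOn ℝ n (A : Set I) → ¬ LinearIndepOn ℝ n (B : Set I) →
      ¬ Disjoint (span ℝ (n '' (A : Set I))) (span ℝ (n '' (B : Set I))))
    (l : Dual ℝ T) : ∀ (m : ℕ) (F J : Finset I), F.card = m →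
      Disjoint (span ℝ (n '' (F : Set I))) (span ℝ (n '' (J : Set I))) →
      LinearIndepOn ℝ n (J : Set I) →
      (∀ y : T, (∀ i ∈ F ∪ J, n i y = 0) → y = 0) →
      ¬ LinearIndepOn ℝ n (F : Set I) →
      (∀ x : T, x ≠ 0 → (∀ j ∈ J, n j x = 0) →
        (∀ y : T, (∀ i ∈ F ∪ J, n i x = 0 → n i y = 0) → ∃ c : ℝ, y = c • x) → l x ≠ 0) →
      ∃ (x : T) (J' K : Finset I), Good n l F J x J' K := by
  intro m
  induction m using Nat.strong_induction_on with
  | _ m ih =>
  intro F J hm hFJ hJ hsp hF hl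
  have hFne : F.Nonempty := by
    by_contra h
    rw [Finset.not_nonempty_iff_eq_empty] at h
    rw [h] at hF
    exact hF (by simp)
  have hne' : ∀ i ∈ F, ∃ u ∈ kerS n J, n i u ≠ 0 := by
    intro i hi
    by_contra hcon
    push Not at hcon
    have h1 : n i ∈ span ℝ (n '' (J : Set I)) := mem_span_of_ker n J (n i) hcon
    have h2 : n i ∈ span ℝ (n '' (F : Set I)) :=
      subset_span (Set.mem_image_of_mem _ (Finset.mem_coe.2 hi))
    exact hne i (Submodule.disjoint_def.1 hFJ _ h2 h1)
  by_cases hconn : ConnU n F (kerS n J)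
  · -- connected case
    obtain ⟨z0, hz0⟩ := exists_intr n l F J hne' hsp hFne hl hconn
    by_cases hind : ∃ z, Intr n l F J z ∧ LinearIndepOn ℝ n {i | i ∈ F ∧ n i z = 0}
    · obtain ⟨z, hz, hi⟩ := hind
      refine ⟨z, J, F, hz.1, Finset.Subset.refl _, Finset.subset_union_right, hz.1.2.1, ?_, ?_,
        Finset.Subset.refl _, hF, hFJ⟩
      · have e : {i | i ∈ F ∪ J ∧ n i z = 0} = {i | i ∈ F ∧ n i z = 0} ∪ (J : Set I) := by
          ext i
          simp only [Finset.mem_union, Set.mem_ofPred_eq, Set.mem_union, Finset.mem_coe]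
          constructor
          · rintro ⟨h1 | h1, h2⟩
            · exact Or.inl ⟨h1, h2⟩
            · exact Or.inr h1
          · rintro (h1 | h1)
            · exact ⟨Or.inl h1.1, h1.2⟩
            · exact ⟨Or.inr h1, hz.1.2.1 i h1⟩
        rw [e]
        refine hi.union hJ (hFJ.mono_left (span_mono (Set.image_mono ?_)))
        intro i hi
        exact hi.1
      · intro g hg hgz y hy
        exact hz.2 g (fun v hv => hg v hv hv.2.1) hgz y hy
    · push Not at hind
      obtain ⟨i0, hi0F, hi0⟩ : ∃ i0 ∈ F, n i0 z0 ≠ 0 := by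
        by_contra hcon
        push Not at hcon
        refine Vt_ne_zero n hz0.1 (hsp z0 (fun i hi => ?_))
        rcases Finset.mem_union.1 hi with h | h
        · exact hcon i h
        · exact hz0.1.2.1 i h
      obtain ⟨z, ⟨hzI, hz0'⟩, hmin⟩ := Set.exists_min_image
        {u | Intr n l F J u ∧ n i0 u ≠ 0} (fun u => |n i0 u|)
        ((Vt_finite n l F J).subset (fun u hu => hu.1.1)) ⟨z0, hz0, hi0⟩
      have hmin' : ∀ u : T, Intr n l F J u → n i0 u ≠ 0 → |n i0 z| ≤ |n i0 u| :=
        fun u h1 h2 => hmin u ⟨h1, h2⟩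
      set F' : Finset I := F.filter (fun i => n i z = 0) with hF'
      have hF'F : F' ⊆ F := Finset.filter_subset _ _
      have hi0F' : i0 ∉ F' := fun h => hz0' (Finset.mem_filter.1 h).2
      have hcard : F'.card < F.card :=
        Finset.card_lt_card (Finset.ssubset_iff_subset_ne.2 ⟨hF'F, fun h => hi0F' (h ▸ hi0F)⟩)
      have hJz : ∀ i ∈ (J : Set I), n i z = 0 := fun i hi => hzI.1.2.1 i hi
      have hi0J : n i0 ∉ span ℝ (n '' (J : Set I)) := fun h => hz0' (span_eval_zero n hJz h)
      have hF'set : (F' : Set I) = {i | i ∈ F ∧ n i z = 0} := by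
        ext i; simp [hF']
      have hsub : F' ∪ insert i0 J ⊆ F ∪ J := by
        intro i hi
        rcases Finset.mem_union.1 hi with h | h
        · exact Finset.mem_union_left _ (hF'F h)
        · rcases Finset.mem_insert.1 h with h | h
          · rw [h]; exact Finset.mem_union_left _ hi0F
          · exact Finset.mem_union_right _ h
      obtain ⟨x, J', K, hgood⟩ := ih F'.card (hm ▸ hcard) F' (insert i0 J) rfl
        (by
          rw [Submodule.disjoint_def]
          intro φ h1 h2
          have hφz : φ z = 0 := span_eval_zero n (fun i hi => by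
            rw [hF'set] at hi; exact hi.2) h1
          rw [Finset.coe_insert, Set.image_insert_eq, Submodule.mem_span_insert] at h2
          obtain ⟨a, ψ, hψ, rfl⟩ := h2
          have hψz : ψ z = 0 := span_eval_zero n hJz hψ
          have ha : a = 0 := by
            simp only [LinearMap.add_apply, LinearMap.smul_apply, smul_eq_mul, hψz,
              add_zero] at hφz
            exact (mul_eq_zero.1 hφz).resolve_right hz0'
          rw [ha, zero_smul, zero_add] at h1 ⊢
          exact Submodule.disjoint_def.1 hFJ ψ (span_mono (Set.image_mono (by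
            intro i hi; exact hF'F hi)) h1) hψ)
        (by
          rw [Finset.coe_insert]
          exact (linearIndepOn_insert (by
            intro h
            exact hi0J (subset_span (Set.mem_image_of_mem _ h)))).2 ⟨hJ, hi0J⟩)
        (by
          intro y hy
          have h1 : y = l y • z := hzI.1.2.2 y (fun i hi h0 => by
            rcases Finset.mem_union.1 hi with h | h
            · exact hy i (Finset.mem_union_left _ (Finset.mem_filter.2 ⟨h, h0⟩))
            · exact hy i (Finset.mem_union_right _ (Finset.mem_insert_of_mem h)))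
          have h2 : n i0 y = 0 := hy i0 (Finset.mem_union_right _ (Finset.mem_insert_self _ _))
          rw [h1, map_smul, smul_eq_mul] at h2
          rw [h1, (mul_eq_zero.1 h2).resolve_right hz0', zero_smul])
        (by rw [hF'set]; exact hind z hzI)
        (fun x hx hxJ hxv => hl x hx (fun j hj => hxJ j (Finset.mem_insert_of_mem hj))
          (fun y hy => hxv y (fun i hi => hy i (hsub hi))))
      have hVsub : Vt n l F' (insert i0 J) ⊆ Vt n l F J :=
        Vt_subset n (Finset.subset_insert _ _) hsub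
      have hgood' := hgood
      obtain ⟨g1, g2, g3, g4, g5, g6, g7, g8, g9⟩ := hgood
      have key : ∀ G ∈ F ∪ J, n G x = 0 → G ∈ F' ∪ insert i0 J := by
        intro G hG hGx
        by_contra hcon
        have hGJ' : G ∉ J' := fun h => hcon (g3 h)
        have hGJ : G ∉ J := fun h => hcon (Finset.mem_union_right _ (Finset.mem_insert_of_mem h))
        have hGF : G ∈ F := (Finset.mem_union.1 hG).resolve_right hGJ
        have hGz : n G z ≠ 0 := fun h =>
          hcon (Finset.mem_union_left _ (Finset.mem_filter.2 ⟨hGF, h⟩))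
        exact no_G n hC hgood' G hGJ' (n G z) hGz
          (fun v hv => sign_step n hi0F hzI hz0' hmin' hGF hv) hGx
      refine ⟨x, J', K, hVsub g1, (Finset.subset_insert _ _).trans g2, g3.trans hsub, g4, ?_, ?_,
        g7.trans hF'F, g8, g9⟩
      · refine g5.mono ?_
        rintro G ⟨hG, hGx⟩
        exact ⟨key G hG hGx, hGx⟩
      · intro g hg hgx y hy
        exact g6 g (fun v hv hvJ => hg v (hVsub hv) hvJ) hgx y hy
  · -- disconnected case
    have main : ∀ A B : Finset I, B.Nonempty → Disjoint A B → A ∪ B = F →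
        Disjoint (span ℝ (n '' (A : Set I))) (span ℝ (n '' (B : Set I))) →
        ¬ LinearIndepOn ℝ n (A : Set I) → LinearIndepOn ℝ n (B : Set I) →
        ∃ (x : T) (J' K : Finset I), Good n l F J x J' K := by
      intro A B hBne hAB hABF hABd hA hB
      have hAF : A ⊆ F := hABF ▸ Finset.subset_union_left
      have hBF : B ⊆ F := hABF ▸ Finset.subset_union_right
      have hcard : A.card < F.card := by
        rw [← hABF, Finset.card_union_of_disjoint hAB]
        have := hBne.card_pos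
        omega
      have hun : A ∪ (J ∪ B) = F ∪ J := by
        rw [← hABF]; ext i; simp only [Finset.mem_union]; tauto
      have hBJ : Disjoint (span ℝ (n '' (J : Set I))) (span ℝ (n '' (B : Set I))) :=
        (hFJ.mono_left (span_mono (Set.image_mono (Finset.coe_subset.2 hBF)))).symm
      obtain ⟨x, J', K, hgood⟩ := ih A.card (hm ▸ hcard) A (J ∪ B) rfl
        (by
          rw [Submodule.disjoint_def]
          intro φ h1 h2
          rw [Finset.coe_union, Set.image_union, span_union, Submodule.mem_sup] at h2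
          obtain ⟨a, ha, b, hb, rfl⟩ := h2
          have haF : a ∈ span ℝ (n '' (F : Set I)) := by
            have e : a = (a + b) - b := by abel
            rw [e]
            refine Submodule.sub_mem _ (span_mono (Set.image_mono (Finset.coe_subset.2 hAF)) h1)
              (span_mono (Set.image_mono (Finset.coe_subset.2 hBF)) hb)
          have ha0 : a = 0 := Submodule.disjoint_def.1 hFJ a haF ha
          rw [ha0, zero_add] at h1 ⊢
          exact Submodule.disjoint_def.1 hABd b h1 hb)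
        (by rw [Finset.coe_union]; exact hJ.union hB hBJ)
        (by rw [hun]; exact hsp) hA
        (fun x hx hxJ hxv => hl x hx (fun j hj => hxJ j (Finset.mem_union_left _ hj))
          (by rw [hun] at hxv; exact hxv))
      have hVsub : Vt n l A (J ∪ B) ⊆ Vt n l F J :=
        Vt_subset n Finset.subset_union_left hun.le
      obtain ⟨g1, g2, g3, g4, g5, g6, g7, g8, g9⟩ := hgood
      rw [hun] at g3 g5
      exact ⟨x, J', K, hVsub g1, Finset.subset_union_left.trans g2, g3, g4, g5,
        fun g hg hgx y hy => g6 g (fun v hv hvJ => hg v (hVsub hv) hvJ) hgx y hy,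
        g7.trans hAF, g8, g9⟩
    unfold ConnU at hconn
    push Not at hconn
    obtain ⟨P, Q, hPQ, hPQd, hPQv, hP0, hQ0⟩ := hconn
    have hPU : P ≤ kerS n J := hPQ ▸ le_sup_left
    have hQU : Q ≤ kerS n J := hPQ ▸ le_sup_right
    classical
    set A : Finset I := F.filter (fun i => ∀ u ∈ Q, n i u = 0) with hAdef
    set B : Finset I := F.filter (fun i => ¬ ∀ u ∈ Q, n i u = 0) with hBdef
    have hAF : A ⊆ F := Finset.filter_subset _ _
    have hBF : B ⊆ F := Finset.filter_subset _ _
    have hABF : A ∪ B = F := Finset.filter_union_filter_not_eq _ _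
    have hAB : Disjoint A B := Finset.disjoint_filter_filter_not _ _ _
    have hAQ : ∀ i ∈ A, ∀ u ∈ Q, n i u = 0 := fun i hi => (Finset.mem_filter.1 hi).2
    have hBP : ∀ i ∈ B, ∀ u ∈ P, n i u = 0 := by
      intro i hi
      obtain ⟨h1, h2⟩ := Finset.mem_filter.1 hi
      exact (hPQv i h1).resolve_right h2
    have hexi : ∀ y ∈ kerS n J, y ≠ 0 → ∃ i ∈ F, n i y ≠ 0 := by
      intro y hy hy0
      by_contra hcon
      push Not at hcon
      refine hy0 (hsp y (fun i hi => ?_))
      rcases Finset.mem_union.1 hi with h | h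
      · exact hcon i h
      · exact hy i h
    have hAne : A.Nonempty := by
      obtain ⟨y, hy, hy0⟩ := Submodule.exists_mem_ne_zero_of_ne_bot hP0
      obtain ⟨i, hi, hiy⟩ := hexi y (hPU hy) hy0
      refine ⟨i, Finset.mem_filter.2 ⟨hi, (hPQv i hi).resolve_left (fun h => hiy (h y hy))⟩⟩
    have hBne : B.Nonempty := by
      obtain ⟨y, hy, hy0⟩ := Submodule.exists_mem_ne_zero_of_ne_bot hQ0
      obtain ⟨i, hi, hiy⟩ := hexi y (hQU hy) hy0
      refine ⟨i, Finset.mem_filter.2 ⟨hi, fun h => hiy (h y hy)⟩⟩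
    have hABd' : Disjoint (span ℝ (n '' (A : Set I))) (span ℝ (n '' (B : Set I))) := by
      rw [Submodule.disjoint_def]
      intro φ h1 h2
      have h4 : φ ∈ span ℝ (n '' (J : Set I)) := by
        refine mem_span_of_ker n J φ (fun y hy => ?_)
        have hy' : y ∈ P ⊔ Q := by rw [hPQ]; exact hy
        obtain ⟨p, hp, q, hq, rfl⟩ := Submodule.mem_sup.1 hy'
        rw [map_add, span_eval_zero n (fun i hi => hAQ i hi q hq) h1,
          span_eval_zero n (fun i hi => hBP i hi p hp) h2, add_zero]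
      exact Submodule.disjoint_def.1 hFJ φ
        (span_mono (Set.image_mono (Finset.coe_subset.2 hAF)) h1) h4
    by_cases hA : LinearIndepOn ℝ n (A : Set I)
    · by_cases hB : LinearIndepOn ℝ n (B : Set I)
      · exfalso
        apply hF
        rw [← hABF, Finset.coe_union]
        exact hA.union hB hABd'
      · exact main B A hAne hAB.symm (by rw [Finset.union_comm]; exact hABF) hABd'.symm hB hA
    · by_cases hB : LinearIndepOn ℝ n (B : Set I)
      · exact main A B hBne hAB hABF hABd' hA hB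
      · exact absurd hABd' (hC A B hA hB)

end ThmT2

section Final

/-- dependent subfamilies are not skew (from the relation form of (C)) -/
theorem skew_of_relB {T : Type} [AddCommGroup T] [Module ℝ T] {I : Type} [Fintype I] [DecidableEq I]
    (n : I → Module.Dual ℝ T) (hne : ∀ i, n i ≠ 0)
    (hC : ∀ a b : I → ℝ, a ≠ 0 → b ≠ 0 → (∀ i, a i = 0 ∨ b i = 0) → ∑ i, a i • n i = 0 →
      ∑ i, b i • n i = 0 → ∃ a' b' : I → ℝ, (∀ i, a i = 0 → a' i = 0) ∧ (∀ i, b i = 0 → b' i = 0) ∧
        ∑ i, a' i • n i = ∑ i, b' i • n i ∧ ∑ i, a' i • n i ≠ 0) :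
    ∀ A B : Finset I, ¬ LinearIndepOn ℝ n (A : Set I) → ¬ LinearIndepOn ℝ n (B : Set I) →
      ¬ Disjoint (Submodule.span ℝ (n '' (A : Set I))) (Submodule.span ℝ (n '' (B : Set I))) := by
  have hrel : ∀ A : Finset I, ¬ LinearIndepOn ℝ n (A : Set I) →
      ∃ a : I → ℝ, a ≠ 0 ∧ (∀ i, i ∉ A → a i = 0) ∧ ∑ i, a i • n i = 0 := by
    intro A hA
    rw [linearIndepOn_finset_iff] at hA
    push Not at hA
    obtain ⟨g, hg, i, hi, hgi⟩ := hA
    refine ⟨fun i => if i ∈ A then g i else 0, ?_, ?_, ?_⟩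
    · intro h
      have := congrFun h i
      simp [hi, hgi] at this
    · intro i hi
      simp [hi]
    · rw [← hg]
      rw [← Finset.sum_subset (Finset.subset_univ A)]
      · exact Finset.sum_congr rfl (fun i hi => by simp [hi])
      · intro i _ hi
        simp [hi]
  have hmem : ∀ (A : Finset I) (a : I → ℝ), (∀ i, i ∉ A → a i = 0) →
      ∑ i, a i • n i ∈ Submodule.span ℝ (n '' (A : Set I)) := by
    intro A a ha
    refine Submodule.sum_mem _ (fun i _ => ?_)
    by_cases hi : i ∈ A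
    · exact Submodule.smul_mem _ _ (Submodule.subset_span ⟨i, hi, rfl⟩)
    · rw [ha i hi, zero_smul]; exact Submodule.zero_mem _
  intro A B hA hB hdis
  obtain ⟨a, ha0, haA, ha⟩ := hrel A hA
  obtain ⟨b, hb0, hbB, hb⟩ := hrel B hB
  by_cases hab : ∀ i, a i = 0 ∨ b i = 0
  · obtain ⟨a', b', h1, h2, h3, h4⟩ := hC a b ha0 hb0 hab ha hb
    refine h4 (Submodule.disjoint_def.1 hdis _ (hmem A a' (fun i hi => h1 i (haA i hi))) ?_)
    rw [h3]
    exact hmem B b' (fun i hi => h2 i (hbB i hi))
  · push Not at hab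
    obtain ⟨i, hai, hbi⟩ := hab
    have hiA : i ∈ A := by
      by_contra h; exact hai (haA i h)
    have hiB : i ∈ B := by
      by_contra h; exact hbi (hbB i h)
    exact hne i (Submodule.disjoint_def.1 hdis _ (Submodule.subset_span ⟨i, hiA, rfl⟩)
      (Submodule.subset_span ⟨i, hiB, rfl⟩))

/-- a vertex off a given hyperplane -/
theorem exists_vertexB {T : Type} [AddCommGroup T] [Module ℝ T] {I : Type} [Fintype I]
    [DecidableEq I] (n : I → Module.Dual ℝ T)
    (hsp : ∀ f : T, (∀ i, n i f = 0) → f = 0) (h : I) (hh : n h ≠ 0) :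
    ∃ v : T, n h v = 1 ∧ ∀ y : T, (∀ i, n i v = 0 → n i y = 0) → ∃ c : ℝ, y = c • v := by
  classical
  obtain ⟨x0, hx0⟩ : ∃ x : T, n h x ≠ 0 := by
    by_contra hcon
    push Not at hcon
    exact hh (LinearMap.ext hcon)
  -- maximal number of zeros
  let P : ℕ → Prop := fun k => ∃ x : T, n h x ≠ 0 ∧
    (Finset.univ.filter (fun i => n i x = 0)).card = k
  have hP0 : ∃ k, P k := ⟨_, x0, hx0, rfl⟩
  have hbd : ∀ k, P k → k ≤ Fintype.card I := by
    rintro k ⟨x, _, rfl⟩
    exact Finset.card_le_univ _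
  have hmax : ∃ k, P k ∧ ∀ k', P k' → k' ≤ k := by
    obtain ⟨k0, hk0⟩ := hP0
    refine ⟨Nat.findGreatest P (Fintype.card I), Nat.findGreatest_spec (hbd k0 hk0) hk0,
      fun k' hk' => Nat.le_findGreatest (hbd k' hk') hk'⟩
  obtain ⟨k, ⟨x, hx, hxk⟩, hmax⟩ := hmax
  refine ⟨(n h x)⁻¹ • x, by simp [hx], fun y hy => ?_⟩
  have hy' : ∀ i, n i x = 0 → n i y = 0 := fun i hi => hy i (by simp [hi])
  suffices h1 : y = (n h y / n h x) • x by
    refine ⟨n h y, ?_⟩
    rw [h1]
    simp only [map_smul, smul_eq_mul, smul_smul]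
    congr 1
    field_simp
  by_contra hne
  have hz : y - (n h y / n h x) • x ≠ 0 := sub_ne_zero.2 hne
  obtain ⟨i, hi⟩ : ∃ i, n i (y - (n h y / n h x) • x) ≠ 0 := by
    by_contra hcon
    push Not at hcon
    exact hz (hsp _ hcon)
  set z : T := y - (n h y / n h x) • x with hzdef
  have hhz : n h z = 0 := by
    rw [hzdef]
    simp only [map_sub, map_smul, smul_eq_mul]
    field_simp
    ring
  have hkz : ∀ j, n j x = 0 → n j z = 0 := by
    intro j hj
    rw [hzdef]
    simp [hy' j hj, hj]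
  have hix : n i x ≠ 0 := fun h0 => hi (hkz i h0)
  have h2 : P ((Finset.univ.filter (fun j => n j (x - (n i x / n i z) • z) = 0)).card) :=
    ⟨x - (n i x / n i z) • z, by simp [hhz, hx], rfl⟩
  have h3 := hmax _ h2
  have h4 : (Finset.univ.filter (fun i => n i x = 0)) ⊂
      (Finset.univ.filter (fun j => n j (x - (n i x / n i z) • z) = 0)) := by
    rw [Finset.ssubset_iff_of_subset]
    · refine ⟨i, ?_, ?_⟩
      · simp only [Finset.mem_filter, Finset.mem_univ, true_and, map_sub, map_smul, smul_eq_mul]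
        field_simp
        ring
      · simp [hix]
    · intro j hj
      have hj' : n j x = 0 := (Finset.mem_filter.1 hj).2
      simp [hj', hkz j hj']
  have h5 := Finset.card_lt_card h4
  omega

variable {T : Type} [AddCommGroup T] [Module ℝ T] [FiniteDimensional ℝ T] {I : Type} [Fintype I]
  [DecidableEq I] (n : I → Dual ℝ T)

/-- The matroid theorem: if no two dependent subfamilies are skew, some vector `f` is determined up to scalar by
the functionals killing it, and these functionals are linearly independent. -/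
theorem indep_hyperplane (hne : ∀ i, n i ≠ 0) (hsp : ∀ f : T, (∀ i, n i f = 0) → f = 0)
    (hC : ∀ A B : Finset I, ¬ LinearIndepOn ℝ n (A : Set I) → ¬ LinearIndepOn ℝ n (B : Set I) →
      ¬ Disjoint (span ℝ (n '' (A : Set I))) (span ℝ (n '' (B : Set I))))
    (h : I) :
    ∃ f : T, f ≠ 0 ∧ LinearIndepOn ℝ n {i | n i f = 0} ∧
      ∀ g : T, (∀ i, n i f = 0 → n i g = 0) → ∃ c : ℝ, g = c • f := by
  obtain ⟨g, hg⟩ := exists_generic n
  set W : Set T := {v | n h v = 1 ∧ ∀ y : T, (∀ i, n i v = 0 → n i y = 0) → ∃ c : ℝ, y = c • v}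
    with hW
  have hWfin : W.Finite := by
    refine (Vt_finite n (n h) Finset.univ ∅).subset ?_
    rintro v ⟨h1, h2⟩
    exact mem_Vt n h1 (by simp) (fun y hy => h2 y (fun i => hy i (by simp)))
  obtain ⟨v, ⟨hv1, hv2⟩, hmax⟩ := Set.exists_max_image W (fun v => g v) hWfin
    (exists_vertexB n hsp h (hne h))
  have hmax' : ∀ u : T, n h u = 1 → (∀ y : T, (∀ i, n i u = 0 → n i y = 0) → ∃ c : ℝ, y = c • u) →
      g u ≤ g v := fun u h1 h2 => hmax u ⟨h1, h2⟩
  have hv0 : v ≠ 0 := by
    rintro rfl; simp at hv1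
  by_cases hind : LinearIndepOn ℝ n {i | n i v = 0}
  · exact ⟨v, hv0, hind, hv2⟩
  set F : Finset I := Finset.univ.filter (fun i => n i v = 0) with hF
  have hFset : (F : Set I) = {i | n i v = 0} := by ext i; simp [hF]
  have hFv : ∀ i ∈ (F : Set I), n i v = 0 := fun i hi => by rw [hFset] at hi; exact hi
  have hmemF : ∀ i, i ∈ F ↔ n i v = 0 := fun i => by simp [hF]
  obtain ⟨x, J', K, hgood⟩ := thmT n hne hC g F.card F {h} rfl
    (by
      rw [Submodule.disjoint_def]
      intro φ h1 h2
      rw [Finset.coe_singleton, Set.image_singleton, Submodule.mem_span_singleton] at h2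
      obtain ⟨a, rfl⟩ := h2
      have := span_eval_zero n hFv h1
      simp only [LinearMap.smul_apply, smul_eq_mul, hv1, mul_one] at this
      rw [this, zero_smul])
    (by
      rw [Finset.coe_singleton]
      exact LinearIndepOn.singleton (hne h))
    (by
      intro y hy
      obtain ⟨c, rfl⟩ := hv2 y (fun i hi => hy i (Finset.mem_union_left _ ((hmemF i).2 hi)))
      have : n h (c • v) = 0 := hy h (by simp)
      simp only [map_smul, smul_eq_mul, hv1, mul_one] at this
      rw [this, zero_smul])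
    (by rw [hFset]; exact hind)
    (fun x hx _ hxv => hg x hx ⟨{i | i ∈ F ∪ {h} ∧ n i x = 0}, fun i hi => hi.2,
      fun y hy => hxv y (fun i hi h0 => hy i ⟨hi, h0⟩)⟩)
  have hgood' := hgood
  obtain ⟨g1, g2, g3, g4, g5, g6, g7, g8, g9⟩ := hgood
  have hx0 : x ≠ 0 := Vt_ne_zero n g1
  have hsign : ∀ G, n G v ≠ 0 → ∀ w ∈ Vt n g F {h}, 0 ≤ n G v * n G w := by
    intro G hGv w hw
    by_contra hlt
    push Not at hlt
    have hGw : n G w ≠ 0 := by
      intro h0; simp [h0] at hlt
    have hhw : n h w = 0 := hw.2.1 h (by simp)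
    set t : ℝ := - n G v / n G w with ht
    have htpos : 0 < t := by
      have e1 : t = -(n G v * n G w) / (n G w) ^ 2 := by
        rw [ht]; field_simp
      rw [e1]
      have : 0 < (n G w) ^ 2 := by positivity
      exact div_pos (by linarith) this
    have hGu : n G ((1:ℝ) • v + t • w) = 0 := by
      simp only [map_add, map_smul, smul_eq_mul, ht]
      field_simp
      ring
    have hvert := vert_on_line n (S := Finset.univ) (z := v) (w := w) (i0 := h) (G := G)
      (by rw [hv1]; exact one_ne_zero)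
      (by
        intro y hy hy0
        refine ⟨g y, hw.2.2 y (fun i hi hiw => ?_)⟩
        rcases Finset.mem_union.1 hi with h' | h'
        · exact hy i (Finset.mem_univ _) ((hmemF i).1 h') hiw
        · rw [Finset.mem_singleton.1 h']; exact hy0)
      (Finset.mem_univ _) hGw (one_ne_zero : (1:ℝ) ≠ 0) hGu
    have h3 := hmax' ((1:ℝ) • v + t • w) (by simp [hv1, hhw])
      (fun y hy => hvert y (fun i _ => hy i))
    simp only [map_add, map_smul, smul_eq_mul, one_mul, hw.1, mul_one] at h3
    linarith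
  have key : ∀ G, n G x = 0 → G ∈ F ∪ {h} := by
    intro G hGx
    by_contra hcon
    have hGJ' : G ∉ J' := fun h => hcon (g3 h)
    have hGv : n G v ≠ 0 := fun h0 => hcon (Finset.mem_union_left _ ((hmemF G).2 h0))
    exact no_G n hC hgood' G hGJ' (n G v) hGv (hsign G hGv) hGx
  refine ⟨x, hx0, ?_, ?_⟩
  · refine g5.mono ?_
    intro G hG
    exact ⟨key G hG, hG⟩
  · intro y hy
    exact ⟨g y, g1.2.2 y (fun i _ h0 => hy i h0)⟩

end Final

/-- CLAIM B of `Iface.lean` -/
theorem claimB : ClaimB := by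
  classical
  intro T _ _ _ I _ n hk hne hsp hC
  have hI : Nonempty I := by
    by_contra hcon
    rw [not_nonempty_iff] at hcon
    have : Subsingleton T := ⟨fun a b => by
      rw [hsp a (fun i => hcon.elim i), hsp b (fun i => hcon.elim i)]⟩
    have := finrank_zero_of_subsingleton (R := ℝ) (M := T)
    omega
  obtain ⟨h⟩ := hI
  obtain ⟨f, hf, hi, hv⟩ := indep_hyperplane n hne hsp (skew_of_relB n hne hC) h
  exact ⟨f, hf, ncard_of_indep n f hf hi hv, hv⟩

end WW
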